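import Mathlib
import Pool.Agent.H532.HY.Const
import Pool.Agent.H532.HY.Basic

/-!
The number of integers without small prime factors in windows congruent to a fixed integer.
-/

namespace Pool.Agent.H532.SQ

open Finset Filter Pool.Agent.H532.RM Pool.Agent.H532.LG Pool.Agent.H532.HY
open scoped Topology

theorem t1_zero (ε c : ℝ) (hε0 : 0 < ε) (hc : 0 < c) : ∀ᶠ ζ : ℕ in atTop, ∀ U : ℕ,
    c * (ζ : ℝ) ^ 2 ≤ U → c * (U : ℝ) ≤ (ζ : ℝ) ^ 2 →
    (T1 (fun _ => 0) ζ 0 U : ℝ) * Real.log U ≤ U * (1 + 2 * ε) := by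
  -- continuity of `WW` at `2`
  obtain ⟨τ, hτ0, hτ⟩ : ∃ τ : ℝ, 0 < τ ∧ ∀ u : ℝ, |u - 2| < τ →
      |Pool.Agent.R529.BU.WW u - 1| < ε := by
    have h0 : ContinuousAt Pool.Agent.R529.BU.WW 2 := Pool.Agent.R529.BU.WW_cont.continuousAt
    obtain ⟨τ, h2, h3⟩ := Metric.continuousAt_iff.1 h0 ε hε0
    refine ⟨τ, h2, fun u hu => ?_⟩
    have h4 := h3 (show dist u 2 < τ by rwa [Real.dist_eq])
    rwa [Real.dist_eq, WW_two] at h4
  obtain ⟨z0, hz0⟩ := Pool.Agent.R529.BU.QA_all 3 (by norm_num) (1 / 2) ε (by norm_num) hε0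
  have hlt : Tendsto (fun ζ : ℕ => Real.log (ζ : ℝ)) atTop atTop :=
    Real.tendsto_log_atTop.comp tendsto_natCast_atTop_atTop
  filter_upwards [(tendsto_natCast_atTop_atTop (R := ℝ)).eventually_ge_atTop (max z0 2),
    hlt.eventually_ge_atTop (|Real.log c| / min τ 1 + 2 * |Real.log c| + 1),
    (tendsto_natCast_atTop_atTop (R := ℝ)).eventually_ge_atTop (1 / c + 2)] with ζ h1 h2 h3
  intro U hU1 hU2
  have hζz : z0 ≤ ζ := (le_max_left _ _).trans h1
  have hζ2 : (2 : ℝ) ≤ ζ := (le_max_right _ _).trans h1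
  have hζ0 : (0 : ℝ) < ζ := by linarith
  have hU0 : (0 : ℝ) < U := lt_of_lt_of_le (by positivity) hU1
  have hlog : 0 < Real.log ζ := Real.log_pos (by linarith)
  have habs := abs_nonneg (Real.log c)
  have hm0 : 0 < min τ 1 := lt_min hτ0 one_pos
  have hdiv : 0 ≤ |Real.log c| / min τ 1 := by positivity
  -- `log U` is close to `2 log ζ`
  have hlU1 : Real.log c + 2 * Real.log ζ ≤ Real.log U := by
    have := Real.log_le_log (by positivity) hU1
    rwa [Real.log_mul hc.ne' (by positivity), Real.log_pow, Nat.cast_ofNat] at this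
  have hlU2 : Real.log c + Real.log U ≤ 2 * Real.log ζ := by
    have := Real.log_le_log (by positivity) hU2
    rwa [Real.log_mul hc.ne' hU0.ne', Real.log_pow, Nat.cast_ofNat] at this
  have hla1 := neg_abs_le (Real.log c)
  have hla2 := le_abs_self (Real.log c)
  have hrat : |Real.log U / Real.log ζ - 2| < min τ 1 := by
    have e : Real.log U / Real.log ζ - 2 = (Real.log U - 2 * Real.log ζ) / Real.log ζ := by
      field_simp
    rw [e, abs_div, abs_of_pos hlog, div_lt_iff₀ hlog]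
    have h5 : |Real.log U - 2 * Real.log ζ| ≤ |Real.log c| := by
      rw [abs_le]; constructor <;> linarith
    have h6 : |Real.log c| / min τ 1 < Real.log ζ := by linarith
    rw [div_lt_iff₀ hm0] at h6
    linarith
  have hWW := hτ _ (lt_of_lt_of_le hrat (min_le_left _ _))
  have hQ := hz0 ζ hζz U (by
    -- ζ ^ (3/2) ≤ U
    have h9 : (ζ : ℝ) ^ ((1 : ℝ) + 1 / 2) = Real.exp ((1 + 1 / 2) * Real.log ζ) := by
      rw [Real.rpow_def_of_pos hζ0, mul_comm]
    rw [h9, ← Real.exp_log hU0]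
    refine Real.exp_le_exp.2 ?_
    linarith) (by
    have h9 : (ζ : ℝ) ^ (((3 : ℕ) : ℝ)) = Real.exp (3 * Real.log ζ) := by
      rw [Real.rpow_def_of_pos hζ0, mul_comm]; norm_num
    rw [h9, ← Real.exp_log hU0]
    refine Real.exp_le_exp.2 ?_
    linarith)
  have hT : (T1 (fun _ => 0) ζ 0 U : ℝ) = ((Pool.Agent.R529.BU.RR (U : ℝ) ζ).card : ℝ) := by
    have := T1_eq_RR ζ (U : ℝ)
    rwa [Nat.floor_natCast] at this
  rw [hT]
  have h10 := (abs_le.1 hQ).2
  have h11 := (abs_lt.1 hWW).2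
  nlinarith

/-- windows congruent to `f0` -/
theorem t1_shift (ζ m U : ℕ) (f0 : ℤ) (h : (m : ℤ) ≡ f0 [ZMOD (primorial ζ : ℕ)]) :
    T1 (fun _ => 0) ζ m U ≤ T1 (fun _ => 0) ζ 0 U + 2 * f0.natAbs := by
  classical
  set S := TT {0} (fun _ => 0) (primesLe ζ) m U with hS
  have h1 : S ⊆ (Ioc m (m + f0.natAbs)) ∪ (Ioc (m + U - f0.natAbs) (m + U)) ∪
      S.filter (fun n : ℕ => 0 < f0 + ((n : ℤ) - m) ∧ f0 + ((n : ℤ) - m) ≤ U) := by
    intro n hn
    obtain ⟨⟨h2, h3⟩, _⟩ := mem_T1.1 hn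
    rw [mem_union, mem_union, mem_filter, mem_Ioc, mem_Ioc]
    rcases le_or_gt (f0 + ((n : ℤ) - m)) 0 with h4 | h4
    · left; left; omega
    · rcases le_or_gt (f0 + ((n : ℤ) - m)) U with h5 | h5
      · right; exact ⟨hn, h4, h5⟩
      · left; right; omega
  have h2 : (S.filter (fun n : ℕ => 0 < f0 + ((n : ℤ) - m) ∧ f0 + ((n : ℤ) - m) ≤ U)).card ≤
      T1 (fun _ => 0) ζ 0 U := by
    unfold T1
    refine card_le_card_of_injOn (fun n : ℕ => (f0 + ((n : ℤ) - m)).toNat) ?_ ?_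
    · intro n hn
      obtain ⟨h3, h4, h5⟩ := mem_filter.1 (mem_coe.1 hn)
      obtain ⟨⟨h6, h7⟩, h8⟩ := mem_T1.1 h3
      have e : (((f0 + ((n : ℤ) - m)).toNat : ℕ) : ℤ) = f0 + ((n : ℤ) - m) :=
        Int.toNat_of_nonneg h4.le
      refine mem_coe.2 (mem_T1.2 ⟨⟨?_, ?_⟩, ?_⟩)
      · beta_reduce; omega
      · beta_reduce; omega
      · intro p hp h9
        refine h8 p hp ?_
        beta_reduce at h9
        rw [Nat.zero_mod] at h9 ⊢
        have hpd : p ∣ (f0 + ((n : ℤ) - m)).toNat := Nat.dvd_of_mod_eq_zero h9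
        have h10 : (p : ℤ) ∣ f0 + ((n : ℤ) - m) := by
          rw [← e]; exact_mod_cast hpd
        have hpP : (p : ℤ) ∣ (primorial ζ : ℕ) := by
          have h11 : primorial ζ = ∏ q ∈ primesLe ζ, q := rfl
          have : p ∣ primorial ζ := by rw [h11]; exact dvd_prod_of_mem _ hp
          exact_mod_cast this
        have h12 : (p : ℤ) ∣ f0 - m := hpP.trans (Int.modEq_iff_dvd.1 h)
        have h13 : (p : ℤ) ∣ n := by
          have := dvd_sub h10 h12
          have e2 : f0 + ((n : ℤ) - m) - (f0 - m) = n := by ring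
          rwa [e2] at this
        exact Nat.mod_eq_zero_of_dvd (by exact_mod_cast h13)
    · intro n hn n' hn' h3
      obtain ⟨_, h4, _⟩ := mem_filter.1 (mem_coe.1 hn)
      obtain ⟨_, h4', _⟩ := mem_filter.1 (mem_coe.1 hn')
      have e : (((f0 + ((n : ℤ) - m)).toNat : ℕ) : ℤ) = f0 + ((n : ℤ) - m) :=
        Int.toNat_of_nonneg h4.le
      have e' : (((f0 + ((n' : ℤ) - m)).toNat : ℕ) : ℤ) = f0 + ((n' : ℤ) - m) :=
        Int.toNat_of_nonneg h4'.le
      beta_reduce at h3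
      rw [h3, e'] at e
      omega
  have h3 := card_le_card h1
  have h4 := (card_union_le _ _).trans (Nat.add_le_add_right (card_union_le
    (Ioc m (m + f0.natAbs)) (Ioc (m + U - f0.natAbs) (m + U)))
    (S.filter (fun n : ℕ => 0 < f0 + ((n : ℤ) - m) ∧ f0 + ((n : ℤ) - m) ≤ U)).card)
  rw [Nat.card_Ioc, Nat.card_Ioc] at h4
  have h5 : T1 (fun _ => 0) ζ m U = S.card := rfl
  omega

lemma T1_mix_zero (y ζ w : ℕ) (hζy : ζ ≤ y) (hζw : ζ ≤ w) (a : ℕ → ℕ) (m U : ℕ) :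
    T1 (mix y (fun _ => 0) a) w m U ≤ T1 (fun _ => 0) ζ m U := by
  refine (T1_anti _ hζw m U).trans (le_of_eq ?_)
  unfold T1
  rw [TT_congr {0} (mix y (fun _ => 0) a) (fun _ => 0) (primesLe ζ) m U fun p hp => by
    unfold mix
    rw [if_pos ((mem_primesLe.1 hp).1.trans hζy)]]

end Pool.Agent.H532.SQ
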