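import Mathlib
import Pool.Agent.H532.SQ.Zero

/-!
Limits for the expected number of elements at the positions.
-/

namespace Pool.Agent.H532.SQ

open Finset Filter Pool.Agent.H532.RM Pool.Agent.H532.LG Pool.Agent.H532.HY
open scoped Topology

/-- the cut between the true and the random classes is `(log n) ^ (1 + o(1))` -/
structure Cut (y : ℕ → ℕ) : Prop where
  low : ∃ κ : ℝ, 0 < κ ∧ ∀ᶠ j : ℕ in atTop, κ * j ≤ y j
  lim : Tendsto (fun j : ℕ => Real.log (y j) / Real.log j) atTop (𝓝 1)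

/-- the level -/
def lw (y : ℕ → ℕ) (j : ℕ) : ℕ := max (y j) (wj j)

/-- the length -/
noncomputable def LU (c : ℝ) (j : ℕ) : ℕ := ⌈c * (((j : ℝ) + 1) * Real.log 2) ^ 2⌉₊

lemma logj_tendsto : Tendsto (fun j : ℕ => Real.log (j : ℝ)) atTop atTop :=
  Real.tendsto_log_atTop.comp tendsto_natCast_atTop_atTop

lemma loglog_o : Tendsto (fun j : ℕ => Real.log (Real.log j) / Real.log j) atTop (𝓝 0) := by
  have h1 := Real.isLittleO_log_id_atTop.tendsto_div_nhds_zero
  exact h1.comp logj_tendsto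

lemma wj_ratio : Tendsto (fun j : ℕ => Real.log (wj j) / Real.log j) atTop (𝓝 1) := by
  have hup : Tendsto (fun j : ℕ => 1 + 3 * (Real.log (Real.log j) / Real.log j) +
      3 * (Real.log 2 / Real.log j)) atTop (𝓝 (1 + 3 * 0 + 3 * 0)) := by
    refine ((tendsto_const_nhds).add (loglog_o.const_mul 3)).add (Tendsto.const_mul 3 ?_)
    exact tendsto_const_nhds.div_atTop logj_tendsto
  have e : (1 : ℝ) + 3 * 0 + 3 * 0 = 1 := by norm_num
  rw [e] at hup
  refine tendsto_of_tendsto_of_tendsto_of_le_of_le' tendsto_const_nhds hup ?_ ?_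
  · filter_upwards [logj_tendsto.eventually_ge_atTop 1, nlog_tendsto.eventually_ge_atTop 1,
      eventually_ge_atTop 1] with j h1 h2 h3
    rw [le_div_iff₀ (by linarith), one_mul]
    refine Real.log_le_log (by exact_mod_cast h3) ?_
    unfold wj
    push_cast
    have h4 : (1 : ℝ) ≤ ((Nat.log 2 j : ℕ) : ℝ) ^ 3 := one_le_pow₀ (by exact_mod_cast h2)
    have h5 : (0 : ℝ) ≤ j := Nat.cast_nonneg _
    nlinarith
  · filter_upwards [logj_tendsto.eventually_ge_atTop 1, nlog_tendsto.eventually_ge_atTop 1,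
      eventually_ge_atTop 2] with j h1 h2 h3
    have hl0 : 0 < Real.log (j : ℝ) := by linarith
    have hj0 : (0 : ℝ) < j := by exact_mod_cast (by omega : 0 < j)
    rw [div_le_iff₀ hl0]
    have hn0 : (0 : ℝ) < ((Nat.log 2 j : ℕ) : ℝ) := by exact_mod_cast (by omega : 0 < Nat.log 2 j)
    have hnl : ((Nat.log 2 j : ℕ) : ℝ) ≤ 2 * Real.log j := by
      have h4 : (2 : ℝ) ^ (Nat.log 2 j) ≤ j := by exact_mod_cast Nat.pow_log_le_self 2 (by omega)
      have h5 := Real.log_le_log (by positivity) h4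
      rw [Real.log_pow] at h5
      have h6 := Real.log_two_gt_d9
      nlinarith
    have e : Real.log (wj j : ℕ) = Real.log j + 3 * Real.log (Nat.log 2 j : ℕ) := by
      unfold wj
      push_cast
      rw [Real.log_mul hj0.ne' (by positivity), Real.log_pow]
      norm_num
    rw [e]
    have h7 : Real.log (Nat.log 2 j : ℕ) ≤ Real.log 2 + Real.log (Real.log j) := by
      rw [← Real.log_mul (by norm_num) hl0.ne']
      exact Real.log_le_log hn0 hnl
    have e2 : (1 + 3 * (Real.log (Real.log j) / Real.log j) + 3 * (Real.log 2 / Real.log j)) *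
        Real.log j = Real.log j + 3 * (Real.log 2 + Real.log (Real.log j)) := by
      field_simp
      ring
    rw [e2]
    linarith

lemma lw_ratio {y : ℕ → ℕ} (hy : Cut y) :
    Tendsto (fun j : ℕ => Real.log (lw y j) / Real.log j) atTop (𝓝 1) := by
  have h1 := hy.lim.max wj_ratio
  rw [max_self] at h1
  refine h1.congr' ?_
  obtain ⟨κ, hκ, hk⟩ := hy.low
  filter_upwards [logj_tendsto.eventually_ge_atTop 1, wj_tendsto.eventually_ge_atTop 1, hk,
    eventually_ge_atTop 1] with j h2 h3 h4 h5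
  have hj0 : (0 : ℝ) < j := by exact_mod_cast h5
  have hy0 : (0 : ℝ) < y j := lt_of_lt_of_le (by positivity) h4
  have hw0 : (0 : ℝ) < wj j := by exact_mod_cast h3
  unfold lw
  rw [Nat.cast_max]
  rcases le_total ((y j : ℕ) : ℝ) ((wj j : ℕ) : ℝ) with h | h
  · rw [max_eq_right h, max_eq_right]
    exact div_le_div_of_nonneg_right (Real.log_le_log hy0 h) (by linarith)
  · rw [max_eq_left h, max_eq_left]
    exact div_le_div_of_nonneg_right (Real.log_le_log hw0 h) (by linarith)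

lemma lw_tendsto (y : ℕ → ℕ) : Tendsto (lw y) atTop atTop :=
  tendsto_atTop_mono (fun _ => le_max_right _ _) wj_tendsto

lemma V_lw {y : ℕ → ℕ} (hy : Cut y) : Tendsto (fun j : ℕ => V (lw y j) * Real.log j) atTop
    (𝓝 (Real.exp (-Real.eulerMascheroniConstant))) := by
  have h1 := (V_log.comp (lw_tendsto y)).div (lw_ratio hy) one_ne_zero
  rw [div_one] at h1
  refine h1.congr' ?_
  filter_upwards [logj_tendsto.eventually_ge_atTop 1, (lw_tendsto y).eventually_ge_atTop 2] with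
    j h2 h3
  have h4 : 0 < Real.log (lw y j : ℕ) := Real.log_pos (by exact_mod_cast (by omega : 1 < lw y j))
  simp only [Pi.div_apply, Function.comp_apply]
  field_simp

lemma lw_sub {y : ℕ → ℕ} (hy : Cut y) : SubE (lw y) := by
  intro c hc
  filter_upwards [(lw_ratio hy).eventually (gt_mem_nhds (show (1 : ℝ) < 2 by norm_num)),
    Wj_exp c hc, logj_tendsto.eventually_ge_atTop 1, (lw_tendsto y).eventually_ge_atTop 1,
    eventually_ge_atTop 1] with j h1 h2 h3 h4 h5
  refine le_trans ?_ h2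
  rw [div_lt_iff₀ (by linarith)] at h1
  have h6 : (0 : ℝ) < lw y j := by exact_mod_cast h4
  have hj0 : (0 : ℝ) < j := by exact_mod_cast h5
  have hj1 : (1 : ℝ) ≤ j := by exact_mod_cast h5
  have h7 : (lw y j : ℝ) ≤ (j : ℝ) ^ 2 := by
    rw [← Real.log_le_log_iff h6 (by positivity), Real.log_pow]
    push_cast
    exact h1.le
  refine h7.trans ?_
  unfold Wj
  push_cast
  exact pow_le_pow_right₀ hj1 (by norm_num)

lemma LU_ratio (c : ℝ) (hc : 0 < c) :
    Tendsto (fun j : ℕ => (LU c j : ℝ) / ((j : ℝ) * Real.log 2) ^ 2) atTop (𝓝 c) := by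
  have hl2 : 0 < Real.log 2 := Real.log_pos (by norm_num)
  have hinv : Tendsto (fun j : ℕ => 1 / (j : ℝ)) atTop (𝓝 0) := tendsto_one_div_atTop_nhds_zero_nat
  have h1 : Tendsto (fun j : ℕ => c * (1 + 1 / (j : ℝ)) ^ 2) atTop (𝓝 (c * (1 + 0) ^ 2)) :=
    ((hinv.const_add 1).pow 2).const_mul c
  have h2 : Tendsto (fun j : ℕ => c * (1 + 1 / (j : ℝ)) ^ 2 + (1 / (j : ℝ)) ^ 2 /
      Real.log 2 ^ 2) atTop (𝓝 (c * (1 + 0) ^ 2 + 0 ^ 2 / Real.log 2 ^ 2)) :=
    h1.add ((hinv.pow 2).div_const _)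
  have e1 : c * (1 + 0) ^ 2 = c := by ring
  have e2 : c * (1 + 0) ^ 2 + 0 ^ 2 / Real.log 2 ^ 2 = c := by norm_num
  rw [e1] at h1
  rw [e2] at h2
  refine tendsto_of_tendsto_of_tendsto_of_le_of_le' h1 h2 ?_ ?_
  · filter_upwards [eventually_ge_atTop 1] with j hj
    have hj0 : (0 : ℝ) < j := by exact_mod_cast hj
    rw [le_div_iff₀ (by positivity)]
    refine le_trans (le_of_eq ?_) (Nat.le_ceil _)
    field_simp
  · filter_upwards [eventually_ge_atTop 1] with j hj
    have hj0 : (0 : ℝ) < j := by exact_mod_cast hj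
    rw [div_le_iff₀ (by positivity)]
    refine (Nat.ceil_lt_add_one (by positivity)).le.trans (le_of_eq ?_)
    field_simp

lemma LU_log (c : ℝ) (hc : 0 < c) :
    Tendsto (fun j : ℕ => Real.log j / Real.log (LU c j)) atTop (𝓝 (1 / 2)) := by
  have hl2 : 0 < Real.log 2 := Real.log_pos (by norm_num)
  have h1 : Tendsto (fun j : ℕ => Real.log ((LU c j : ℝ) / ((j : ℝ) * Real.log 2) ^ 2)) atTop
      (𝓝 (Real.log c)) := (LU_ratio c hc).log hc.ne'
  have h2 : Tendsto (fun j : ℕ => (Real.log ((LU c j : ℝ) / ((j : ℝ) * Real.log 2) ^ 2) +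
      2 * Real.log (Real.log 2)) / Real.log j + 2) atTop (𝓝 (0 + 2)) :=
    ((h1.add_const _).div_atTop logj_tendsto).add_const 2
  rw [zero_add] at h2
  have h3 : Tendsto (fun j : ℕ => Real.log (LU c j) / Real.log j) atTop (𝓝 2) := by
    refine h2.congr' ?_
    filter_upwards [logj_tendsto.eventually_ge_atTop 1, eventually_ge_atTop 1,
      (LU_ratio c hc).eventually (lt_mem_nhds (show c / 2 < c by linarith))] with j h4 h5 h6
    have hj0 : (0 : ℝ) < j := by exact_mod_cast h5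
    rw [lt_div_iff₀ (by positivity)] at h6
    have hU0 : (0 : ℝ) < LU c j := lt_of_le_of_lt (by positivity) h6
    rw [Real.log_div hU0.ne' (by positivity), Real.log_pow, Real.log_mul hj0.ne' hl2.ne']
    field_simp
    push_cast
    ring
  have h4 := h3.inv₀ (by norm_num)
  rw [← one_div] at h4
  exact h4.congr fun j => by rw [inv_div]

theorem s_bound {y z : ℕ → ℕ} (hy : Cut y)
    (hz : Tendsto (fun j : ℕ => V (z (2 ^ j)) * (j * Real.log 2)) atTop (𝓝 1))
    (c K κ δ : ℝ) (hc : 0 < c) (hκ : 0 < κ) (hδ : 0 < δ) (ζ : ℕ → ℕ)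
    (hζ1 : ∀ᶠ j : ℕ in atTop, κ * j ≤ ζ j) (hζ2 : ∀ᶠ j : ℕ in atTop, ζ j ≤ j) :
    ∀ᶠ j : ℕ in atTop, V (z (2 ^ j)) / V (lw y j) * (T1 (fun _ => 0) (ζ j) 0 (LU c j) + K) ≤
      (c / (2 * Real.exp (-Real.eulerMascheroniConstant)) + δ) * (j * Real.log 2) := by
  obtain ⟨g, hg⟩ : ∃ g : ℝ, g = Real.exp (-Real.eulerMascheroniConstant) := ⟨_, rfl⟩
  have hg0 : 0 < g := by rw [hg]; exact Real.exp_pos _
  have hl2 : 0 < Real.log 2 := Real.log_pos (by norm_num)
  have hl21 : Real.log 2 < 1 := by have := Real.log_two_lt_d9; linarith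
  obtain ⟨ε, hε⟩ : ∃ ε : ℝ, ε = δ * g / (2 * c) := ⟨_, rfl⟩
  have hε0 : 0 < ε := by rw [hε]; positivity
  have hVl := V_lw hy
  rw [← hg] at hVl ⊢
  have hlogj2 : Tendsto (fun j : ℕ => Real.log j / ((j : ℝ) * Real.log 2) ^ 2) atTop (𝓝 0) := by
    have h1 : Tendsto (fun j : ℕ => Real.log (j : ℝ) / (j : ℝ)) atTop (𝓝 0) :=
      (Real.isLittleO_log_id_atTop.tendsto_div_nhds_zero).comp tendsto_natCast_atTop_atTop
    have h2 : Tendsto (fun j : ℕ => Real.log (j : ℝ) / (j : ℝ) * (1 / (j : ℝ)) / Real.log 2 ^ 2)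
        atTop (𝓝 (0 * 0 / Real.log 2 ^ 2)) :=
      (h1.mul tendsto_one_div_atTop_nhds_zero_nat).div_const _
    rw [zero_mul, zero_div] at h2
    refine h2.congr fun j => ?_
    rw [mul_pow, div_mul_div_comm, mul_one, div_div, ← sq]
  have hF : Tendsto (fun j : ℕ => (V (z (2 ^ j)) * (j * Real.log 2)) *
      ((LU c j : ℝ) / ((j : ℝ) * Real.log 2) ^ 2) / (V (lw y j) * Real.log j) *
      (Real.log j / Real.log (LU c j)) * (1 + 2 * ε) +
      |K| * (V (z (2 ^ j)) * (j * Real.log 2)) / (V (lw y j) * Real.log j) *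
        (Real.log j / ((j : ℝ) * Real.log 2) ^ 2)) atTop
      (𝓝 (1 * c / g * (1 / 2) * (1 + 2 * ε) + |K| * 1 / g * 0)) :=
    ((((hz.mul (LU_ratio c hc)).div hVl hg0.ne').mul (LU_log c hc)).mul_const _).add
      (((hz.const_mul |K|).div hVl hg0.ne').mul hlogj2)
  have hlim : 1 * c / g * (1 / 2) * (1 + 2 * ε) + |K| * 1 / g * 0 < c / (2 * g) + δ := by
    have e : 1 * c / g * (1 / 2) * (1 + 2 * ε) + |K| * 1 / g * 0 = c / (2 * g) + δ / 2 := by
      rw [hε]; field_simp; ring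
    rw [e]; linarith
  have hζt : Tendsto ζ atTop atTop := by
    have h1 : Tendsto (fun j : ℕ => ((ζ j : ℕ) : ℝ)) atTop atTop :=
      tendsto_atTop_mono' atTop hζ1 (tendsto_natCast_atTop_atTop.const_mul_atTop hκ)
    exact tendsto_natCast_atTop_iff.1 h1
  obtain ⟨c', hc'⟩ : ∃ c' : ℝ, c' = min (c * Real.log 2 ^ 2 / 2) (κ ^ 2 / (2 * c)) := ⟨_, rfl⟩
  have hc'0 : 0 < c' := by rw [hc']; exact lt_min (by positivity) (by positivity)
  filter_upwards [hF.eventually (gt_mem_nhds hlim), hζt.eventually (t1_zero ε c' hε0 hc'0),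
    hζ1, hζ2, (LU_ratio c hc).eventually (lt_mem_nhds (show c / 2 < c by linarith)),
    (LU_ratio c hc).eventually (gt_mem_nhds (show c < 2 * c by linarith)),
    logj_tendsto.eventually_ge_atTop 1, eventually_ge_atTop 1,
    (LU_log c hc).eventually (lt_mem_nhds (show (1 : ℝ) / 4 < 1 / 2 by norm_num))] with
    j h1 h2 h3 h4 h5 h6 h7 h8 h9
  have hj0 : (0 : ℝ) < j := by exact_mod_cast h8
  have hVZ := V_pos (z (2 ^ j))
  have hVw := V_pos (lw y j)
  rw [lt_div_iff₀ (by positivity)] at h5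
  rw [div_lt_iff₀ (by positivity)] at h6
  have hU0 : (0 : ℝ) < LU c j := lt_of_le_of_lt (by positivity) h5
  have hζj : (ζ j : ℝ) ≤ j := by exact_mod_cast h4
  have hlU : 0 < Real.log (LU c j) := by
    by_contra hcon
    have h10 : Real.log j / Real.log (LU c j) ≤ 0 :=
      div_nonpos_of_nonneg_of_nonpos (by linarith) (not_lt.1 hcon)
    linarith
  have h10 := h2 (LU c j) (by
    calc c' * (ζ j : ℝ) ^ 2 ≤ (c * Real.log 2 ^ 2 / 2) * (j : ℝ) ^ 2 := by
          have : c' ≤ c * Real.log 2 ^ 2 / 2 := by rw [hc']; exact min_le_left _ _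
          gcongr
      _ = c / 2 * (j * Real.log 2) ^ 2 := by ring
      _ ≤ LU c j := h5.le) (by
    have h11 : c' ≤ κ ^ 2 / (2 * c) := by rw [hc']; exact min_le_right _ _
    calc c' * (LU c j : ℝ) ≤ κ ^ 2 / (2 * c) * (2 * c * (j * Real.log 2) ^ 2) := by gcongr
      _ = κ ^ 2 * (j : ℝ) ^ 2 * Real.log 2 ^ 2 := by field_simp
      _ ≤ κ ^ 2 * (j : ℝ) ^ 2 * 1 := by
          have : Real.log 2 ^ 2 ≤ 1 := by nlinarith
          gcongr
      _ = (κ * j) ^ 2 := by ring
      _ ≤ (ζ j : ℝ) ^ 2 := by gcongr)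
  have h11 : (T1 (fun _ => 0) (ζ j) 0 (LU c j) : ℝ) ≤
      LU c j * (1 + 2 * ε) / Real.log (LU c j) := by
    rw [le_div_iff₀ hlU]; exact h10
  calc V (z (2 ^ j)) / V (lw y j) * (T1 (fun _ => 0) (ζ j) 0 (LU c j) + K) ≤
      V (z (2 ^ j)) / V (lw y j) * (LU c j * (1 + 2 * ε) / Real.log (LU c j) + |K|) := by
        have := le_abs_self K
        gcongr
    _ = ((V (z (2 ^ j)) * (j * Real.log 2)) *
      ((LU c j : ℝ) / ((j : ℝ) * Real.log 2) ^ 2) / (V (lw y j) * Real.log j) *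
      (Real.log j / Real.log (LU c j)) * (1 + 2 * ε) +
      |K| * (V (z (2 ^ j)) * (j * Real.log 2)) / (V (lw y j) * Real.log j) *
        (Real.log j / ((j : ℝ) * Real.log 2) ^ 2)) * (j * Real.log 2) := by
        have hlj : 0 < Real.log (j : ℝ) := by linarith
        field_simp
    _ ≤ _ := by gcongr

end Pool.Agent.H532.SQ
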