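import Mathlib
import Pool.Agent.H532.HY.Conc

/-!
Concentration between a level `w` and the level `j ^ 40`, in all short windows.
-/

namespace Pool.Agent.H532.SQ

open Finset MeasureTheory Function ProbabilityTheory Filter Pool.Agent.H532.RM Pool.Agent.H532.LG
  Pool.Agent.H532.HY
open scoped ENNReal Topology

/-- the elements which survive the primes between the deterministic level and the working level -/
theorem conc_mixL (y w : ℕ → ℕ) (b : ℕ → ℕ → ℕ) (hyw0 : ∀ j, y j ≤ w j) (hyw : ∀ᶠ j : ℕ in atTop, wj j ≤ w j)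
    (δ : ℝ) (hδ : 0 < δ) (hδ1 : δ ≤ 1) {Ω : Type}
    [MeasurableSpace Ω] (μ : Measure Ω) [IsProbabilityMeasure μ] (A : ℕ → Ω → ℕ)
    (hA : RandomClasses μ A) :
    ∀ᵐ ω ∂μ, ∀ᶠ j : ℕ in atTop, ∀ m < 2 ^ (j + 3), ∀ U : ℕ, U ≤ j ^ 3 →
      Real.log j ^ 2 ≤ (U : ℝ) / j →
      (T1 (mix (y j) (b j) (fun p => A p ω)) (WY w j) m U : ℝ) ≤
        V (WY w j) / V (w j) * T1 (mix (y j) (b j) (fun p => A p ω)) (w j) m U + δ * (U * V (WY w j)) := by
  classical
  obtain ⟨C', hC', hKb⟩ := Kb
  obtain ⟨C0, hC0, ζ0, hup⟩ := upper_big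
  obtain ⟨c, _, hc, _, hVts⟩ := V_two_sided
  set C : ℝ := max C0 1 with hC
  have hC1 : 1 ≤ C := le_max_right _ _
  set F : ℕ → Finset ℕ := fun j => (range (j ^ 3 + 1)).filter (fun U =>
    Real.log j ^ 2 ≤ ((U : ℕ) : ℝ) / j) with hF
  set E : ℕ → ℕ → ℕ → Set Ω := fun j m U =>
    {ω | δ * (U * V (WY w j)) ≤ |(T1 (mix (y j) (b j) (fun p => A p ω)) (WY w j) m U : ℝ) -
        V (WY w j) / V (w j) * T1 (mix (y j) (b j) (fun p => A p ω)) (w j) m U|} with hE
  set E' : ℕ → ℕ → ℕ → Set Ω := fun j m U => if w j < Wj j then E j m U else ∅ with hE'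
  have hjt : Tendsto (fun j : ℕ => (j : ℝ)) atTop atTop := tendsto_natCast_atTop_atTop
  have hlogt : Tendsto (fun j : ℕ => Real.log (j : ℝ)) atTop atTop :=
    Real.tendsto_log_atTop.comp hjt
  -- `U V_W` is much larger than `j`
  have ev1 : ∀ᶠ j : ℕ in atTop, 160 * C / δ ^ 2 * j ≤ (j : ℝ) * Real.log j ^ 2 * V (Wj j) := by
    filter_upwards [hlogt.eventually_ge_atTop (40 * (160 * C / δ ^ 2) / c),
      hlogt.eventually_ge_atTop 1, eventually_ge_atTop 2] with j h1 h1' hj2
    have h2 := (hVts (Wj j) (by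
      unfold Wj
      calc 2 ≤ j := hj2
        _ ≤ j ^ 40 := Nat.le_self_pow (by norm_num) j)).1
    have h3 : Real.log (Wj j : ℕ) = 40 * Real.log j := by
      unfold Wj; push_cast; rw [Real.log_pow]; norm_num
    rw [h3] at h2
    set D : ℝ := 160 * C / δ ^ 2 with hD
    have hD0 : 0 < D := by positivity
    rw [div_le_iff₀ hc] at h1
    set t := Real.log j with ht
    have h4 : 40 * D ≤ t * (V (Wj j) * (40 * t)) := h1.trans (by gcongr)
    have h5 : D ≤ t ^ 2 * V (Wj j) := by nlinarith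
    calc D * (j : ℝ) ≤ (t ^ 2 * V (Wj j)) * j := by gcongr
      _ = (j : ℝ) * t ^ 2 * V (Wj j) := by ring
  have ev3 := wj_large (160 * C * C' / δ ^ 2)
  have hmeas : ∀ᶠ j : ℕ in atTop,
      μ (⋃ m ∈ range (2 ^ (j + 3)), ⋃ U ∈ F j, E' j m U) ≤
        ENNReal.ofReal ((1 / 2 : ℝ) ^ j) := by
    have evexp : ∀ᶠ j : ℕ in atTop, ((j : ℝ) ^ 3 + 1) ≤ 2 ^ j := by
      filter_upwards [ev_poly_exp (Real.log 2) (Real.log_pos (by norm_num)) 4,
        eventually_ge_atTop 2] with j hj h2
      rw [Real.exp_neg, ← div_eq_mul_inv, div_le_one (Real.exp_pos _)] at hj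
      have e : Real.exp (Real.log 2 * j) = 2 ^ j := by
        rw [mul_comm, Real.exp_nat_mul, Real.exp_log (by norm_num)]
      rw [e] at hj
      have hj2 : (2 : ℝ) ≤ j := by exact_mod_cast h2
      refine le_trans ?_ hj
      have : (1 : ℝ) ≤ (j : ℝ) ^ 3 := one_le_pow₀ (by linarith)
      calc (j : ℝ) ^ 3 + 1 ≤ 2 * (j : ℝ) ^ 3 := by linarith
        _ ≤ j * (j : ℝ) ^ 3 := by gcongr
        _ = (j : ℝ) ^ 4 := by ring
    filter_upwards [ev1, ev3, wj_tendsto.eventually_ge_atTop (max 4 ζ0),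
      eventually_ge_atTop 16, hyw, evexp] with j h1 h3 h4 h5 h6 hexp2
    have hw4 : 4 ≤ w j := ((le_max_left _ _).trans h4).trans h6
    have hwζ : ζ0 ≤ w j := ((le_max_right _ _).trans h4).trans h6
    have hjr : (16 : ℝ) ≤ j := by exact_mod_cast h5
    have hj0 : (0 : ℝ) < j := by linarith
    have hwr : (4 : ℝ) ≤ w j := by exact_mod_cast hw4
    have hlw : 0 < Real.log (w j) := Real.log_pos (by linarith)
    have hVZ := V_pos (Wj j)
    have hVw := V_pos (w j)
    have h3' : 160 * C * C' / δ ^ 2 * j * (Real.log (w j) / w j) ≤ 1 := by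
      have hw4' : (4 : ℝ) ≤ wj j := by exact_mod_cast (le_max_left _ _).trans h4
      have hanti : Real.log (w j) / w j ≤ Real.log (wj j) / wj j := by
        have he : Real.exp 1 ≤ 4 := by have := Real.exp_one_lt_d9; linarith
        exact Real.log_div_self_antitoneOn (a := ((wj j : ℕ) : ℝ)) (b := ((w j : ℕ) : ℝ))
          (show Real.exp 1 ≤ _ by linarith) (show Real.exp 1 ≤ _ by linarith)
          (by exact_mod_cast h6)
      calc 160 * C * C' / δ ^ 2 * j * (Real.log (w j) / w j) ≤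
          160 * C * C' / δ ^ 2 * j * (Real.log (wj j) / wj j) := by gcongr
        _ ≤ 1 := by
            rw [← mul_div_assoc, div_le_one (by linarith)]
            exact h3
    have hone : ∀ m ∈ range (2 ^ (j + 3)), ∀ U ∈ F j, μ (E' j m U) ≤
        ENNReal.ofReal (2 * Real.exp (-(4 * ((j : ℝ) + 4)))) := by
      intro m _ U hU
      rw [hE']
      beta_reduce
      split_ifs with hyW
      swap
      · simp
      have hWY : WY w j = Wj j := max_eq_right hyW.le
      rw [hE]
      beta_reduce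
      rw [hWY]
      have hUr := (mem_filter.1 hU).2
      rw [le_div_iff₀ hj0] at hUr
      have hlj1 : 1 ≤ Real.log j ^ 2 := by
        have : 1 ≤ Real.log j := by
          rw [← Real.log_exp 1]
          refine Real.log_le_log (Real.exp_pos _) ?_
          have := Real.exp_one_lt_d9
          linarith
        exact one_le_pow₀ this
      have hjU : (j : ℝ) ≤ U := by nlinarith
      have hU0 : (0 : ℝ) < U := by linarith
      have hjU' : j ≤ U := by exact_mod_cast hjU
      set a : ℝ := C' * (U * V (Wj j) * (Real.log (w j) / w j)) with ha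
      have ha0 : 0 ≤ a := by positivity
      obtain ⟨k1, k2⟩ := hKb (w j) (Wj j) U hw4
      set Kh : ℝ := 1 + a with hKh
      have hKhpos : 0 < Kh := by rw [hKh]; linarith
      set θ : ℝ := δ / (8 * C * Kh) with hθ
      have hθ0 : 0 ≤ θ := by positivity
      have hθK : 4 * θ * Kh = δ / (2 * C) := by
        rw [hθ]; field_simp; ring
      have h4θ : 4 * θ * Kh ≤ 1 := by
        rw [hθK, div_le_one (by positivity)]; linarith
      have hM : ∀ c, V (Wj j) / V (w j) * T1 c (w j) m U ≤ C * (U * V (Wj j)) := by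
        intro c
        have hw2 : w j ≤ U ^ 40 := by
          calc w j ≤ Wj j := hyW.le
            _ = j ^ 40 := rfl
            _ ≤ U ^ 40 := Nat.pow_le_pow_left hjU' 40
        have h7 := hup (w j) hwζ U hw2 c m
        calc V (Wj j) / V (w j) * T1 c (w j) m U ≤
            V (Wj j) / V (w j) * (C0 * (U * V (w j))) := by gcongr
          _ = C0 * (U * V (Wj j)) := by field_simp
          _ ≤ C * (U * V (Wj j)) := by
              have : C0 ≤ C := le_max_left _ _
              gcongr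
      have htail := tail1_mix hA (y j) (b j) (w j) (Wj j) hw4 (hyw0 j) hyW.le m U Kh k1 k2 θ hθ0 h4θ
        (δ * (U * V (Wj j))) (C * (U * V (Wj j))) hM
      refine htail.trans (ENNReal.ofReal_le_ofReal ?_)
      have hexp : 4 * ((j : ℝ) + 4) ≤
          θ * (δ * (U * V (Wj j)) - 4 * θ * Kh * (C * (U * V (Wj j)))) := by
        rw [hθK]
        have e1 : δ * (U * V (Wj j)) - δ / (2 * C) * (C * (U * V (Wj j))) =
            δ / 2 * (U * V (Wj j)) := by
          field_simp; ring
        rw [e1]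
        have e2 : θ * (δ / 2 * (U * V (Wj j))) = δ ^ 2 * (U * V (Wj j)) / (16 * C * Kh) := by
          rw [hθ]; field_simp; ring
        rw [e2, le_div_iff₀ (by positivity)]
        have h11 : 4 * ((j : ℝ) + 4) ≤ 5 * j := by linarith
        have h12 : 5 * (j : ℝ) * (16 * C) ≤ δ ^ 2 * (U * V (Wj j)) / 2 := by
          have h13 : 160 * C * j ≤ δ ^ 2 * ((j : ℝ) * Real.log j ^ 2 * V (Wj j)) := by
            have e3 : 160 * C / δ ^ 2 * (j : ℝ) = 160 * C * j / δ ^ 2 := by ring
            rw [e3, div_le_iff₀ (by positivity)] at h1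
            linarith
          have h14 : δ ^ 2 * ((j : ℝ) * Real.log j ^ 2 * V (Wj j)) ≤
              δ ^ 2 * (U * V (Wj j)) := by
            have : (j : ℝ) * Real.log j ^ 2 ≤ U := by linarith
            gcongr
          linarith
        have h16 : 5 * (j : ℝ) * (16 * C) * a ≤ δ ^ 2 * (U * V (Wj j)) / 2 := by
          rw [ha]
          have e4 : 5 * (j : ℝ) * (16 * C) * (C' * (U * V (Wj j) * (Real.log (w j) / w j))) =
              (160 * C * C' / δ ^ 2 * j * (Real.log (w j) / w j)) *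
                (δ ^ 2 * (U * V (Wj j)) / 2) := by
            field_simp; ring
          rw [e4]
          have : 0 ≤ δ ^ 2 * (U * V (Wj j)) / 2 := by positivity
          nlinarith
        calc 4 * ((j : ℝ) + 4) * (16 * C * Kh) ≤ 5 * j * (16 * C * Kh) := by gcongr
          _ = 5 * j * (16 * C) + 5 * j * (16 * C) * a := by rw [hKh]; ring
          _ ≤ δ ^ 2 * (U * V (Wj j)) := by linarith
      gcongr
    obtain ⟨κ0, hκ0⟩ : ∃ t : ℝ, t = 2 * Real.exp (-(4 * ((j : ℝ) + 4))) := ⟨_, rfl⟩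
    rw [← hκ0] at hone
    have hκ00 : 0 ≤ κ0 := by rw [hκ0]; positivity
    calc μ (⋃ m ∈ range (2 ^ (j + 3)), ⋃ U ∈ F j, E' j m U)
        ≤ ∑ m ∈ range (2 ^ (j + 3)), μ (⋃ U ∈ F j, E' j m U) :=
          measure_biUnion_finset_le _ _
      _ ≤ ∑ m ∈ range (2 ^ (j + 3)), ∑ U ∈ F j, μ (E' j m U) := by
          gcongr with m hm
          exact measure_biUnion_finset_le _ _
      _ ≤ ∑ m ∈ range (2 ^ (j + 3)), ∑ U ∈ F j, ENNReal.ofReal κ0 := by
          gcongr with m hm U hU
          exact hone m hm U hU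
      _ ≤ ∑ m ∈ range (2 ^ (j + 3)), ∑ U ∈ range (j ^ 3 + 1), ENNReal.ofReal κ0 := by
          gcongr
          exact filter_subset _ _
      _ = ENNReal.ofReal ((2 : ℝ) ^ (j + 3) * (((j : ℝ) ^ 3 + 1) * κ0)) := by
          rw [sum_const, sum_const, card_range, card_range, nsmul_eq_mul, nsmul_eq_mul]
          have hp0 : (0 : ℝ) ≤ (2 : ℝ) ^ (j + 3) := by positivity
          have hp1 : (0 : ℝ) ≤ (j : ℝ) ^ 3 + 1 := by positivity
          have e5 : ENNReal.ofReal ((2 : ℝ) ^ (j + 3)) = ((2 ^ (j + 3) : ℕ) : ℝ≥0∞) := by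
            rw [← ENNReal.ofReal_natCast]; push_cast; rfl
          have e6 : ENNReal.ofReal ((j : ℝ) ^ 3 + 1) = ((j ^ 3 + 1 : ℕ) : ℝ≥0∞) := by
            rw [← ENNReal.ofReal_natCast]; push_cast; rfl
          rw [ENNReal.ofReal_mul hp0, ENNReal.ofReal_mul hp1, e5, e6]
      _ ≤ ENNReal.ofReal ((1 / 2 : ℝ) ^ j) := by
          refine ENNReal.ofReal_le_ofReal ?_
          rw [hκ0]
          have h3 : Real.exp (-(4 * ((j : ℝ) + 4))) ≤ (1 / 8 : ℝ) ^ (j + 4) := by
            have h4 : Real.exp (-4) ≤ 1 / 8 := by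
              rw [Real.exp_neg, ← one_div]
              refine one_div_le_one_div_of_le (by norm_num) ?_
              have h5 := Real.add_one_le_exp (4 : ℝ)
              have h6 : Real.exp 4 = Real.exp 1 ^ 4 := by rw [← Real.exp_nat_mul]; norm_num
              rw [h6]
              have h7 : (2 : ℝ) ≤ Real.exp 1 := by
                have := Real.exp_one_gt_d9; linarith
              calc (8 : ℝ) ≤ 2 ^ 4 := by norm_num
                _ ≤ Real.exp 1 ^ 4 := by gcongr
            calc Real.exp (-(4 * ((j : ℝ) + 4))) = Real.exp (-4) ^ (j + 4) := by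
                  rw [← Real.exp_nat_mul]; congr 1; push_cast; ring
              _ ≤ (1 / 8 : ℝ) ^ (j + 4) := by gcongr
          calc (2 : ℝ) ^ (j + 3) * (((j : ℝ) ^ 3 + 1) * (2 * Real.exp (-(4 * ((j : ℝ) + 4)))))
              ≤ 2 ^ (j + 3) * (2 ^ j * (2 * (1 / 8 : ℝ) ^ (j + 4))) := by gcongr
            _ = (16 / 4096) * (1 / 2) ^ j := by
                have e7 : (1 / 8 : ℝ) ^ (j + 4) = (1 / 2) ^ j * (1 / 2) ^ j * (1 / 2) ^ j *
                    (1 / 4096) := by
                  rw [pow_add, ← mul_pow, ← mul_pow]; norm_num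
                have e8 : (2 : ℝ) ^ j * (1 / 2) ^ j = 1 := by
                  rw [← mul_pow]; norm_num
                rw [e7, pow_add]
                calc (2 : ℝ) ^ j * 2 ^ 3 * (2 ^ j * (2 * ((1 / 2) ^ j * (1 / 2) ^ j * (1 / 2) ^ j *
                    (1 / 4096)))) = (2 ^ j * (1 / 2) ^ j) * (2 ^ j * (1 / 2) ^ j) *
                      ((16 / 4096) * (1 / 2) ^ j) := by ring
                  _ = (16 / 4096) * (1 / 2) ^ j := by rw [e8]; ring
            _ ≤ (1 / 2 : ℝ) ^ j := by
                have : 0 ≤ (1 / 2 : ℝ) ^ j := by positivity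
                nlinarith
  have hbc := borel_cantelli_nat μ _ hmeas
  filter_upwards [hbc] with ω hω
  filter_upwards [hω] with j hj
  intro m hm U hU hU2
  rcases lt_or_ge (w j) (Wj j) with hyW | hyW
  · by_contra hcon
    rw [not_le] at hcon
    refine hj ?_
    refine Set.mem_biUnion (x := m) (mem_coe.2 (mem_range.2 hm)) ?_
    refine Set.mem_biUnion (x := U) (mem_coe.2 (mem_filter.2 ⟨mem_range.2 (by omega), hU2⟩)) ?_
    rw [hE']
    beta_reduce
    rw [if_pos hyW]
    show δ * (U * V (WY w j)) ≤ |_|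
    refine le_trans ?_ (le_abs_self _)
    linarith
  · have hWY : WY w j = w j := max_eq_left hyW
    rw [hWY, div_self (V_pos _).ne', one_mul]
    have := (V_pos (w j)).le
    have : 0 ≤ δ * (U * V (w j)) := by positivity
    linarith

end Pool.Agent.H532.SQ
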