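import Mathlib
import Pool.Agent.H532.SQ.Kill

/-!
From a family of windows with few elements at level `W` to empty windows: given positions.
-/

namespace Pool.Agent.H532.SQ

open Finset MeasureTheory Function ProbabilityTheory Filter Pool.Agent.H532.RM Pool.Agent.H532.LG
open scoped ENNReal Topology

/-- the passage to empty windows -/
def KillOKB (η C0 κ : ℝ) (j W Z : ℕ) (a : ℕ → ℕ) (Bs : Finset ℕ) : Prop := ∀ U ≤ j ^ 3, ∀ n ≤ U,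
  ∀ i ≤ j, Real.log j ^ 2 ≤ (U : ℝ) / j → (U : ℝ) / j ≤ C0 * j →
  κ * ((U : ℝ) / j) ≤ V Z / V W * n → V Z / V W * n ≤ C0 * ((U : ℝ) / j) →
  (j : ℝ) ^ 22 ≤ 2 ^ i * Real.exp (-(V Z / V W * n) - η * ((U : ℝ) / j)) →
  Fam Bs a W U n (2 ^ i) →
  Fam Bs a Z U 0 (2 ^ i * Real.exp (-(V Z / V W * n) - η * ((U : ℝ) / j)))

theorem kill_allB (η C0 κ : ℝ) (hη : 0 < η) (hC0 : 1 ≤ C0) (hηC : η * C0 ≤ 1 / 8)
    (hκ : 0 < κ) : ∃ ε2 κρ : ℝ, 0 < ε2 ∧ ε2 ≤ 1 / 4 ∧ 0 < κρ ∧ ∀ {Ω : Type}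
    [MeasurableSpace Ω] (μ : Measure Ω) [IsProbabilityMeasure μ] (A : ℕ → Ω → ℕ)
    (_ : RandomClasses μ A) (y : ℕ → ℕ) (bb : ℕ → ℕ → ℕ) (W Z1 Z : ℕ → ℕ)
    (_ : ∀ᶠ j : ℕ in atTop, Lev ε2 κρ j (y j) (W j) (Z1 j) (Z j))
    (Bs : ℕ → Finset ℕ) (_ : ∀ᶠ j : ℕ in atTop, ∀ m ∈ Bs j, m < 2 ^ (j + 2)),
    ∀ᵐ ω ∂μ, ∀ᶠ j : ℕ in atTop,
      KillOKB η C0 κ j (W j) (Z j) (mix (y j) (bb j) (fun p => A p ω)) (Bs j) := by
  classical
  obtain ⟨ε2, κρ, h1, h2, h3, hone⟩ := kill_oneB η C0 κ hη hC0 hηC hκ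
  refine ⟨ε2, κρ, h1, h2, h3, ?_⟩
  intro Ω _ μ _ A hA y bb W Z1 Z hlev Bs hBs
  set rr : ℕ → ℝ := fun j => V (Z j) / V (W j) with hrr
  set Ev : ℕ → ℕ → ℕ → ℕ → Set Ω := fun j U n i =>
    {ω | Fam (Bs j) (mix (y j) (bb j) (fun p => A p ω)) (W j) U n (2 ^ i) ∧
      ¬ Fam (Bs j) (mix (y j) (bb j) (fun p => A p ω)) (Z j) U 0
        (2 ^ i * Real.exp (-(rr j * n) - η * ((U : ℝ) / j)))} with hEv
  set F : ℕ → Finset (ℕ × ℕ × ℕ) := fun j => (range (j ^ 3 + 1) ×ˢ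
    range (j ^ 3 + 1) ×ˢ range (j + 1)).filter (fun q => q.2.1 ≤ q.1 ∧
      Real.log j ^ 2 ≤ (q.1 : ℝ) / j ∧ (q.1 : ℝ) / j ≤ C0 * j ∧
      κ * ((q.1 : ℝ) / j) ≤ rr j * q.2.1 ∧ rr j * q.2.1 ≤ C0 * ((q.1 : ℝ) / j) ∧
      (j : ℝ) ^ 22 ≤ 2 ^ q.2.2 * Real.exp (-(rr j * q.2.1) - η * ((q.1 : ℝ) / j))) with hF
  set E : ℕ → Set Ω := fun j => ⋃ q ∈ F j, Ev j q.1 q.2.1 q.2.2 with hE
  have hmeas : ∀ᶠ j : ℕ in atTop, μ (E j) ≤ ENNReal.ofReal (1 / (j : ℝ) ^ 2) := by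
    filter_upwards [hone, hlev, hBs, eventually_ge_atTop 2] with j hj hl hB hj2
    have hjr : (2 : ℝ) ≤ j := by exact_mod_cast hj2
    have hj0 : (0 : ℝ) < j := by linarith
    have hq : ∀ q ∈ F j, μ (Ev j q.1 q.2.1 q.2.2) ≤
        ENNReal.ofReal (2 / (j : ℝ) ^ 20) := by
      intro q hq
      obtain ⟨hq1, hq2, hq3, hq4, hq5, hq6, hq7⟩ := mem_filter.1 hq
      simp only [mem_product, mem_range] at hq1
      exact hj μ A hA (y j) (bb j) (W j) (Z1 j) (Z j) hl.yW hl.jW hl.WZ1 hl.Z1Z hl.Z1e hl.r1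
        hl.r2 hl.r3 (Bs j) hB q.1 q.2.1 (by omega) hq2 _ hq3 hq4 hq5 hq6 _ hq7
    calc μ (E j) ≤ ∑ q ∈ F j, μ (Ev j q.1 q.2.1 q.2.2) :=
          measure_biUnion_finset_le _ _
      _ ≤ ∑ q ∈ F j, ENNReal.ofReal (2 / (j : ℝ) ^ 20) := sum_le_sum hq
      _ = (F j).card * ENNReal.ofReal (2 / (j : ℝ) ^ 20) := by rw [sum_const, nsmul_eq_mul]
      _ ≤ ENNReal.ofReal (((j : ℝ) ^ 3 + 1) ^ 2 * (j + 1)) *
          ENNReal.ofReal (2 / (j : ℝ) ^ 20) := by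
          gcongr
          rw [← ENNReal.ofReal_natCast]
          refine ENNReal.ofReal_le_ofReal ?_
          have h4 : (F j).card ≤ (j ^ 3 + 1) ^ 2 * (j + 1) := by
            refine (card_filter_le _ _).trans (le_of_eq ?_)
            simp only [card_product, card_range]
            ring
          exact_mod_cast h4
      _ ≤ ENNReal.ofReal (1 / (j : ℝ) ^ 2) := by
          rw [← ENNReal.ofReal_mul (by positivity)]
          refine ENNReal.ofReal_le_ofReal ?_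
          have h5 : ((j : ℝ) ^ 3 + 1) ^ 2 ≤ 4 * (j : ℝ) ^ 6 := by
            have h4 : (j : ℝ) ^ 3 + 1 ≤ 2 * (j : ℝ) ^ 3 := by
              have : (1 : ℝ) ≤ (j : ℝ) ^ 3 := one_le_pow₀ (by linarith)
              linarith
            calc ((j : ℝ) ^ 3 + 1) ^ 2 ≤ (2 * (j : ℝ) ^ 3) ^ 2 := by gcongr
              _ = 4 * (j : ℝ) ^ 6 := by ring
          have h6 : (16 : ℝ) ≤ (j : ℝ) ^ 11 := by
            calc (16 : ℝ) ≤ 2 ^ 11 := by norm_num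
              _ ≤ (j : ℝ) ^ 11 := by gcongr
          calc ((j : ℝ) ^ 3 + 1) ^ 2 * (j + 1) * (2 / (j : ℝ) ^ 20) ≤
              (4 * (j : ℝ) ^ 6) * (2 * j) * (2 / (j : ℝ) ^ 20) := by
                gcongr
                linarith
            _ = 16 / (j : ℝ) ^ 11 * (1 / (j : ℝ) ^ 2) := by field_simp; ring
            _ ≤ 1 * (1 / (j : ℝ) ^ 2) := by
                gcongr
                rw [div_le_one (by positivity)]; exact h6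
            _ = 1 / (j : ℝ) ^ 2 := one_mul _
  have hbc := borel_cantelli_sq μ E hmeas
  filter_upwards [hbc] with ω hω
  filter_upwards [hω] with j hj
  intro U hU n hn i hi c1 c2 c3 c4 c5 hfam
  have hmemF : (U, n, i) ∈ F j := by
    rw [hF]
    refine mem_filter.2 ⟨?_, hn, c1, c2, c3, c4, c5⟩
    simp only [mem_product, mem_range]
    omega
  by_contra hcon
  exact hj (Set.mem_biUnion (x := (U, n, i)) (mem_coe.2 hmemF) ⟨hfam, hcon⟩)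

end Pool.Agent.H532.SQ
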