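import Mathlib
import Pool.Agent.H532.SQ.KillAll
import Pool.Agent.H532.SQ.Conc
import Pool.Agent.H532.LG.LevEv
import Pool.Agent.H532.LG.Count

/-!
Empty windows in given positions: the number of the elements at the level `w` determines a lower
bound for the number of the empty windows.
-/

namespace Pool.Agent.H532.SQ

open Finset MeasureTheory Function ProbabilityTheory Filter Pool.Agent.H532.RM Pool.Agent.H532.LG
  Pool.Agent.H532.HY
open scoped ENNReal Topology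

theorem gen_lower (y w : ℕ → ℕ) (b : ℕ → ℕ → ℕ) (hyw0 : ∀ j, y j ≤ w j)
    (hww : ∀ᶠ j : ℕ in atTop, wj j ≤ w j) (hw : SubE w)
    (δ C0 : ℝ) (hδ : 0 < δ) (hδ1 : δ ≤ 1) (hC0 : 1 ≤ C0) {Ω : Type}
    [MeasurableSpace Ω] (μ : Measure Ω) [IsProbabilityMeasure μ] (A : ℕ → Ω → ℕ)
    (hA : RandomClasses μ A) (Z : ℕ → ℕ)
    (hZ : Tendsto (fun j : ℕ => V (Z j) * (j * Real.log 2)) atTop (𝓝 1))
    (Bs : ℕ → Finset ℕ) (hBs : ∀ᶠ j : ℕ in atTop, ∀ m ∈ Bs j, m < 2 ^ (j + 2)) :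
    ∀ᵐ ω ∂μ, ∀ᶠ j : ℕ in atTop, ∀ U : ℕ, UOK C0 j U → ∀ (s : ℝ), 0 ≤ s → s ≤ C0 * ((U : ℝ) / j) →
      ∀ i ≤ j, (∃ M ⊆ Bs j, 2 ^ i ≤ M.card ∧ Sep U M ∧ ∀ m ∈ M,
        V (Z j) / V (w j) * T1 (mix (y j) (b j) (fun p => A p ω)) (w j) m U ≤ s) →
      (j : ℝ) ^ 22 ≤ 2 ^ i * Real.exp (-s - δ * ((U : ℝ) / j)) →
      ∃ M ⊆ Bs j, 2 ^ i * Real.exp (-s - δ * ((U : ℝ) / j)) ≤ (M.card : ℝ) ∧
        ∀ m ∈ M, T1 (mix (y j) (b j) (fun p => A p ω)) (Z j) m U = 0 := by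
  classical
  obtain ⟨C0', hC0'⟩ : ∃ C0' : ℝ, C0' = C0 + 3 := ⟨_, rfl⟩
  have hC0'1 : 1 ≤ C0' := by rw [hC0']; linarith
  obtain ⟨η, hη⟩ : ∃ η : ℝ, η = min (δ / 4) (1 / (8 * C0')) := ⟨_, rfl⟩
  have hη0 : 0 < η := by rw [hη]; exact lt_min (by positivity) (by positivity)
  have hηδ : η ≤ δ / 4 := by rw [hη]; exact min_le_left _ _
  have hηC : η * C0' ≤ 1 / 8 := by
    have h1 : η ≤ 1 / (8 * C0') := by rw [hη]; exact min_le_right _ _
    rw [le_div_iff₀ (by positivity)] at h1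
    linarith
  obtain ⟨ε2, κρ, hε2, hε21, hκρ, hkill⟩ := kill_allB η C0' η hη0 hC0'1 hηC hη0
  have hρ := rho_sub (WY_sub hw) (WY_ge_two w) hZ
  have hWZ := W_le_Z hρ
  obtain ⟨Z1, hlev⟩ := lev_ev ε2 κρ hε2 hε21 hκρ y (WY w) Z
    (Eventually.of_forall fun j => (hyw0 j).trans (le_max_left _ _))
    (Eventually.of_forall fun _ => le_max_right _ _) hρ hZ
  have hvz : ∀ᶠ j : ℕ in atTop, 1 ≤ (j : ℝ) * V (Z j) ∧ (j : ℝ) * V (Z j) ≤ 2 := by
    have hl2a := Real.log_two_gt_d9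
    have hl2b := Real.log_two_lt_d9
    filter_upwards [hZ.eventually (lt_mem_nhds (show (0.9 : ℝ) < 1 by norm_num)),
      hZ.eventually (gt_mem_nhds (show (1 : ℝ) < 1.1 by norm_num))] with j h1 h2
    have h3 : 0 ≤ (j : ℝ) * V (Z j) := mul_nonneg (Nat.cast_nonneg _) (V_pos _).le
    constructor <;> nlinarith
  have hlogt : Tendsto (fun j : ℕ => Real.log (j : ℝ) ^ 2) atTop atTop :=
    (tendsto_pow_atTop (by norm_num)).comp
      (Real.tendsto_log_atTop.comp tendsto_natCast_atTop_atTop)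
  filter_upwards [hkill μ A hA y b (WY w) Z1 Z hlev Bs hBs,
    conc_mixL y w b hyw0 hww (η / 2) (by positivity) (by linarith) μ A hA] with ω hω1 hω2
  filter_upwards [hω1, hω2, hWZ, (V_WY_zero w).eventually (gt_mem_nhds (show (0 : ℝ) <
    1 / (C0 + 3) by positivity)), hvz, hlogt.eventually_ge_atTop (1 / η + 1),
    eventually_ge_atTop 16, hBs] with j h1 h2 h4 h5 h6 h7 h10 hB
  obtain ⟨h6a, h6b⟩ := h6
  intro U hU s hs0 hsC i hij ⟨M, hMB, hMi, hMs, hMT⟩ hbig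
  obtain ⟨a, ha⟩ : ∃ a : ℕ → ℕ, a = mix (y j) (b j) (fun p => A p ω) := ⟨_, rfl⟩
  rw [← ha] at h1 h2 hMT ⊢
  have hjr : (16 : ℝ) ≤ j := by exact_mod_cast h10
  have hj0 : (0 : ℝ) < j := by linarith
  have hVZ := V_pos (Z j)
  have hVW := V_pos (WY w j)
  have hVw := V_pos (w j)
  obtain ⟨h, hh⟩ : ∃ h : ℝ, h = (U : ℝ) / j := ⟨_, rfl⟩
  have hu2 := hU.u2
  have h1η : 0 < 1 / η := by positivity
  have hw1 : 1 / η + 1 ≤ h := by rw [hh]; linarith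
  have hh0 : 0 < h := by linarith
  have hηh : 1 ≤ η * h := by
    have h11 : 1 / η ≤ h := by linarith
    rw [div_le_iff₀ hη0] at h11
    linarith
  have hUh : (U : ℝ) = h * j := by rw [hh]; field_simp
  have hUVZ : (U : ℝ) * V (Z j) ≤ 2 * h := by
    rw [hUh]
    calc h * j * V (Z j) = h * (j * V (Z j)) := by ring
      _ ≤ h * 2 := by gcongr
      _ = _ := by ring
  rw [← hh] at hsC hbig ⊢
  obtain ⟨ρ', hρ'd⟩ : ∃ ρ' : ℝ, ρ' = V (Z j) / V (WY w j) := ⟨_, rfl⟩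
  have hρ'0 : 0 < ρ' := by rw [hρ'd]; positivity
  have hρ'1 : ρ' ≤ 1 := by rw [hρ'd, div_le_one hVW]; exact V_anti h4
  obtain ⟨n, hn⟩ : ∃ n : ℕ, n = ⌊(s + 2 * (η * h)) / ρ'⌋₊ := ⟨_, rfl⟩
  have hn1 : ρ' * n ≤ s + 2 * (η * h) := by
    have := Nat.floor_le (show 0 ≤ (s + 2 * (η * h)) / ρ' by positivity)
    rw [← hn, le_div_iff₀ hρ'0] at this
    linarith
  have hn2 : s + 2 * (η * h) - 1 ≤ ρ' * n := by
    have := Nat.lt_floor_add_one ((s + 2 * (η * h)) / ρ')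
    rw [← hn, div_lt_iff₀ hρ'0] at this
    nlinarith
  have hMn : ∀ m ∈ M, T1 a (WY w j) m U ≤ n := by
    intro m hm
    have hm2 := hB m (hMB hm)
    have g1 := h2 m (by
      have e3 : 2 ^ (j + 3) = 2 * 2 ^ (j + 2) := by rw [← pow_succ']
      omega) U hU.u1 hU.u2
    have g2 := hMT m hm
    rw [hn]
    refine Nat.le_floor ?_
    rw [le_div_iff₀ hρ'0]
    calc (T1 a (WY w j) m U : ℝ) * ρ' ≤
        (V (WY w j) / V (w j) * T1 a (w j) m U + η / 2 * (U * V (WY w j))) * ρ' := by gcongr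
      _ = V (Z j) / V (w j) * T1 a (w j) m U + η / 2 * (U * V (Z j)) := by
          rw [hρ'd]; field_simp
      _ ≤ s + η / 2 * (2 * h) := by gcongr
      _ ≤ s + 2 * (η * h) := by nlinarith
  have hηC1 : η ≤ 1 := by
    have : η * 1 ≤ η * C0' := by gcongr
    linarith
  have hn3 : ρ' * n ≤ (C0 + 2) * h := by
    refine hn1.trans ?_
    nlinarith
  have hnU : n ≤ U := by
    have e1 : (n : ℝ) ≤ U := by
      have e3 : ρ' * n ≤ ρ' * U := by
        refine hn3.trans ?_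
        rw [hρ'd, hUh, div_mul_eq_mul_div, le_div_iff₀ hVW]
        calc (C0 + 2) * h * V (WY w j) ≤ (C0 + 2) * h * (1 / (C0 + 3)) := by gcongr
          _ ≤ h * 1 := by
              rw [mul_one_div, div_le_iff₀ (by linarith)]
              nlinarith
          _ ≤ h * (j * V (Z j)) := by gcongr
          _ = V (Z j) * (h * j) := by ring
      exact le_of_mul_le_mul_left e3 hρ'0
    exact_mod_cast e1
  have c3 : η * ((U : ℝ) / j) ≤ V (Z j) / V (WY w j) * n := by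
    rw [← hρ'd, ← hh]
    refine le_trans ?_ hn2
    linarith
  have c4 : V (Z j) / V (WY w j) * n ≤ C0' * ((U : ℝ) / j) := by
    rw [← hρ'd, ← hh]
    refine hn3.trans ?_
    have : C0 + 2 ≤ C0' := by rw [hC0']; linarith
    gcongr
  have hcmp : Real.exp (-s - δ * h) ≤ Real.exp (-(ρ' * n) - η * h) := by
    refine Real.exp_le_exp.2 ?_
    have : 4 * (η * h) ≤ δ * h := by nlinarith
    linarith
  have c5 : (j : ℝ) ^ 22 ≤ 2 ^ i * Real.exp (-(V (Z j) / V (WY w j) * n) -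
      η * ((U : ℝ) / j)) := by
    rw [← hρ'd, ← hh]
    exact hbig.trans (by gcongr)
  have hfin := h1 U hU.u1 n hnU i hij hU.u2 (by
    have := hU.u3
    rw [div_le_iff₀ hj0]
    calc (U : ℝ) ≤ C0 * (j : ℝ) ^ 2 := this
      _ ≤ C0' * (j : ℝ) ^ 2 := by
          have : C0 ≤ C0' := by rw [hC0']; linarith
          gcongr
      _ = C0' * j * j := by ring) c3 c4 c5 ⟨M, hMB, by exact_mod_cast hMi, hMs, hMn⟩
  rw [← hρ'd, ← hh] at hfin
  obtain ⟨M', g1, g2, _, g4⟩ := hfin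
  exact ⟨M', g1, le_trans (by gcongr) g2, fun m hm => Nat.le_zero.1 (g4 m hm)⟩

end Pool.Agent.H532.SQ
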