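import Mathlib
import Pool.Agent.H532.RM.Star2

/-!
Positions: the values of a polynomial at the multiples of `P` in a dyadic block.
-/

namespace Pool.Agent.H532.SQ

open Finset Filter Polynomial Pool.Agent.H532.RM
open scoped Topology

/-- the size of the values of a polynomial -/
lemma poly_size (f : ℤ[X]) (hd : 0 < f.natDegree) (hl : 0 < f.leadingCoeff) :
    ∀ᶠ x : ℝ in atTop, 0.95 * ((f.leadingCoeff : ℝ) * x ^ f.natDegree) ≤
      (f.map (Int.castRingHom ℝ)).eval x ∧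
      (f.map (Int.castRingHom ℝ)).eval x ≤ 1.05 * ((f.leadingCoeff : ℝ) * x ^ f.natDegree) := by
  have h1 := (f.map (Int.castRingHom ℝ)).isEquivalent_atTop_lead
  have hinj : Function.Injective (Int.castRingHom ℝ) := Int.cast_injective
  rw [leadingCoeff_map_of_injective hinj, natDegree_map_eq_of_injective hinj] at h1
  have hl' : (0 : ℝ) < f.leadingCoeff := by exact_mod_cast hl
  have h2 := (Asymptotics.isEquivalent_iff_tendsto_one (by
    filter_upwards [eventually_gt_atTop 0] with x hx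
    have : (0 : ℝ) < (Int.castRingHom ℝ) f.leadingCoeff * x ^ f.natDegree := by
      have e : (Int.castRingHom ℝ) f.leadingCoeff = (f.leadingCoeff : ℝ) := rfl
      rw [e]; positivity
    exact this.ne')).1 h1
  filter_upwards [h2.eventually (lt_mem_nhds (show (0.95 : ℝ) < 1 by norm_num)),
    h2.eventually (gt_mem_nhds (show (1 : ℝ) < 1.05 by norm_num)), eventually_gt_atTop 0] with
    x h3 h4 h5
  have e : (Int.castRingHom ℝ) f.leadingCoeff = (f.leadingCoeff : ℝ) := rfl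
  simp only [Pi.div_apply, e] at h3 h4
  have h6 : (0 : ℝ) < (f.leadingCoeff : ℝ) * x ^ f.natDegree := by positivity
  rw [lt_div_iff₀ h6] at h3
  rw [div_lt_iff₀ h6] at h4
  exact ⟨h3.le, h4.le⟩

lemma eval_map_nat (f : ℤ[X]) (n : ℕ) :
    (f.map (Int.castRingHom ℝ)).eval (n : ℝ) = ((f.eval (n : ℤ) : ℤ) : ℝ) := by
  have := Polynomial.eval_map_apply (p := f) (f := Int.castRingHom ℝ) (x := (n : ℤ))
  simpa using this

/-- `ε`-room -/
lemma card_fiber (f : ℤ[X]) (hd : 0 < f.natDegree) (S : Finset ℕ) (P : ℕ) (hP : 0 < P) (v : ℤ) :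
    (S.filter (fun t => f.eval ((P * t : ℕ) : ℤ) = v)).card ≤ f.natDegree := by
  classical
  have hne : f - C v ≠ 0 := by
    intro h
    have : (f - C v).natDegree = f.natDegree := natDegree_sub_C
    rw [h, natDegree_zero] at this
    omega
  have h1 : (S.filter (fun t => f.eval ((P * t : ℕ) : ℤ) = v)).card ≤
      (f - C v).roots.toFinset.card := by
    refine card_le_card_of_injOn (fun t => ((P * t : ℕ) : ℤ)) ?_ ?_
    · intro t ht
      obtain ⟨_, h2⟩ := mem_filter.1 (mem_coe.1 ht)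
      refine mem_coe.2 (Multiset.mem_toFinset.2 ((mem_roots hne).2 ?_))
      show (f - C v).eval _ = 0
      rw [eval_sub, eval_C, h2, sub_self]
    · intro t _ t' _ h
      have h3 : ((P * t : ℕ) : ℤ) = ((P * t' : ℕ) : ℤ) := h
      have h2 : P * t = P * t' := by exact_mod_cast h3
      exact Nat.eq_of_mul_eq_mul_left hP h2
  calc _ ≤ (f - C v).roots.toFinset.card := h1
    _ ≤ Multiset.card (f - C v).roots := Multiset.toFinset_card_le _
    _ ≤ (f - C v).natDegree := card_roots' _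
    _ = f.natDegree := natDegree_sub_C

/-- many positions -/
theorem positions (f : ℤ[X]) (hd : 0 < f.natDegree) (hl : 0 < f.leadingCoeff) (ε : ℝ)
    (hε : 0 < ε) (hε1 : ε ≤ Real.log 2 / (4 * f.natDegree)) : ∀ᶠ j : ℕ in atTop, ∀ P U : ℕ,
      U ≤ j ^ 3 → U < P → (P : ℝ) ≤ Real.exp (ε * j) →
      ∃ M : Finset ℕ, Sep U M ∧ Real.exp ((Real.log 2 / f.natDegree - 2 * ε) * j) ≤ (M.card : ℝ) ∧
        ∀ m ∈ M, 2 ^ j ≤ m ∧ m + U < 2 ^ (j + 1) ∧ (∃ n : ℕ, f.eval (n : ℤ) = m) ∧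
          (m : ℤ) ≡ f.eval 0 [ZMOD P] := by
  classical
  obtain ⟨d, hd'⟩ : ∃ d : ℕ, d = f.natDegree := ⟨_, rfl⟩
  obtain ⟨a, ha⟩ : ∃ a : ℝ, a = f.leadingCoeff := ⟨_, rfl⟩
  have ha0 : 0 < a := by rw [ha]; exact_mod_cast hl
  have hd0 : (0 : ℝ) < d := by rw [hd']; exact_mod_cast hd
  have hdn : d ≠ 0 := by omega
  obtain ⟨α, hα⟩ : ∃ α : ℝ, α = (1.2 / a) ^ ((1 : ℝ) / d) := ⟨_, rfl⟩
  obtain ⟨β, hβ⟩ : ∃ β : ℝ, β = (1.8 / a) ^ ((1 : ℝ) / d) := ⟨_, rfl⟩
  have hα0 : 0 < α := by rw [hα]; positivity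
  have hαβ : α < β := by
    rw [hα, hβ]
    refine Real.rpow_lt_rpow (by positivity) ?_ (by positivity)
    gcongr
    norm_num
  have hαd : a * α ^ d = 1.2 := by
    rw [hα, ← Real.rpow_natCast, ← Real.rpow_mul (by positivity), one_div,
      inv_mul_cancel₀ hd0.ne', Real.rpow_one]
    field_simp
  have hβd : a * β ^ d = 1.8 := by
    rw [hβ, ← Real.rpow_natCast, ← Real.rpow_mul (by positivity), one_div,
      inv_mul_cancel₀ hd0.ne', Real.rpow_one]
    field_simp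
  obtain ⟨x0, hx0⟩ := eventually_atTop.1 (poly_size f hd hl)
  rw [← hd', ← ha] at hx0
  rw [← hd'] at hε1 ⊢
  have hlog2 : (0 : ℝ) < Real.log 2 := Real.log_pos (by norm_num)
  -- `R = 2 ^ (j / d)`
  have hcd : 0 < Real.log 2 / d - 2 * ε := by
    have : ε ≤ Real.log 2 / d / 4 := by
      rw [div_div, mul_comm (d : ℝ) 4]; exact hε1
    have h2 : 0 < Real.log 2 / d := by positivity
    linarith
  have hjt : Tendsto (fun j : ℕ => (j : ℝ)) atTop atTop := tendsto_natCast_atTop_atTop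
  have ev1 : ∀ᶠ j : ℕ in atTop, (2 + d) / (β - α) ≤ Real.exp (ε * j) :=
    (Real.tendsto_exp_atTop.comp (hjt.const_mul_atTop hε)).eventually_ge_atTop _
  have ev2 : ∀ᶠ j : ℕ in atTop, x0 / α ≤ Real.exp (Real.log 2 / d * j) :=
    (Real.tendsto_exp_atTop.comp (hjt.const_mul_atTop (by positivity))).eventually_ge_atTop _
  have ev3 : ∀ᶠ j : ℕ in atTop, (j : ℝ) ^ 3 + 1 ≤ 0.1 * 2 ^ j := by
    have h2 : Tendsto (fun j : ℕ => (j : ℝ) ^ 3 * (1 / 2 : ℝ) ^ j) atTop (𝓝 0) :=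
      tendsto_pow_const_mul_const_pow_of_abs_lt_one 3 (by norm_num [abs_of_pos])
    filter_upwards [h2.eventually (gt_mem_nhds (show (0 : ℝ) < 0.05 by norm_num)),
      eventually_ge_atTop 1] with j hj hj1
    have h3 : (0 : ℝ) < 2 ^ j := by positivity
    have e : (j : ℝ) ^ 3 * (1 / 2 : ℝ) ^ j = (j : ℝ) ^ 3 / 2 ^ j := by
      rw [one_div, inv_pow, ← div_eq_mul_inv]
    rw [e, div_lt_iff₀ h3] at hj
    have h4 : (1 : ℝ) ≤ (j : ℝ) ^ 3 := one_le_pow₀ (by exact_mod_cast hj1)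
    linarith
  filter_upwards [ev1, ev2, ev3] with j h1 h2 h3
  intro P U hU hUP hPe
  have hP0 : 0 < P := by omega
  have hPr : (0 : ℝ) < P := by exact_mod_cast hP0
  obtain ⟨R, hR⟩ : ∃ R : ℝ, R = Real.exp (Real.log 2 / d * j) := ⟨_, rfl⟩
  have hR0 : 0 < R := by rw [hR]; exact Real.exp_pos _
  have hRd : R ^ d = 2 ^ j := by
    rw [hR, ← Real.exp_nat_mul]
    have : (d : ℝ) * (Real.log 2 / d * j) = j * Real.log 2 := by field_simp
    rw [this, Real.exp_nat_mul, Real.exp_log (by norm_num)]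
  rw [← hR] at h2
  rw [div_le_iff₀ hα0] at h2
  obtain ⟨S, hS⟩ : ∃ S : Finset ℕ, S = Icc ⌈α * R / P⌉₊ ⌊β * R / P⌋₊ := ⟨_, rfl⟩
  -- the properties of the elements of `S`
  have hmem : ∀ t ∈ S, (2 : ℝ) ^ j ≤ (f.eval ((P * t : ℕ) : ℤ) : ℤ) ∧
      ((f.eval ((P * t : ℕ) : ℤ) : ℤ) : ℝ) + U < 2 ^ (j + 1) := by
    intro t ht
    rw [hS, mem_Icc] at ht
    have t1 : α * R / P ≤ t := (Nat.ceil_le).1 ht.1
    have t2 : (t : ℝ) ≤ β * R / P := by
      have : 0 ≤ β * R / P := by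
        have : 0 < β := hα0.trans hαβ
        positivity
      exact (Nat.le_floor_iff this).1 ht.2
    rw [div_le_iff₀ hPr] at t1
    rw [le_div_iff₀ hPr] at t2
    have e0 : (((P * t : ℕ) : ℕ) : ℝ) = t * P := by push_cast; ring
    have t3 : x0 ≤ ((P * t : ℕ) : ℝ) := by rw [e0]; linarith
    obtain ⟨t4, t5⟩ := hx0 _ t3
    rw [eval_map_nat] at t4 t5
    have t6 : α * R ≤ ((P * t : ℕ) : ℝ) := by rw [e0]; linarith
    have t7 : ((P * t : ℕ) : ℝ) ≤ β * R := by rw [e0]; linarith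
    constructor
    · refine le_trans ?_ t4
      have t8 : (α * R) ^ d ≤ ((P * t : ℕ) : ℝ) ^ d := by gcongr
      rw [mul_pow, hRd] at t8
      calc (2 : ℝ) ^ j ≤ 0.95 * (1.2 * 2 ^ j) := by
            have : (0 : ℝ) < 2 ^ j := by positivity
            linarith
        _ = 0.95 * (a * (α ^ d * 2 ^ j)) := by rw [← hαd]; ring
        _ ≤ _ := by gcongr
    · have t8 : ((P * t : ℕ) : ℝ) ^ d ≤ (β * R) ^ d := by gcongr
      rw [mul_pow, hRd] at t8
      have t9 : 1.05 * (a * ((P * t : ℕ) : ℝ) ^ d) ≤ 1.05 * (1.8 * 2 ^ j) := by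
        calc 1.05 * (a * ((P * t : ℕ) : ℝ) ^ d) ≤ 1.05 * (a * (β ^ d * 2 ^ j)) := by gcongr
          _ = 1.05 * (1.8 * 2 ^ j) := by rw [← hβd]; ring
      have t10 : (U : ℝ) ≤ (j : ℝ) ^ 3 := by exact_mod_cast hU
      have : (0 : ℝ) < 2 ^ j := by positivity
      rw [pow_succ]
      linarith
  have hpos : ∀ t ∈ S, 0 ≤ f.eval ((P * t : ℕ) : ℤ) := by
    intro t ht
    have h4 := (hmem t ht).1
    have h5 : (0 : ℝ) ≤ ((f.eval ((P * t : ℕ) : ℤ) : ℤ) : ℝ) := le_trans (by positivity) h4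
    exact_mod_cast h5
  have hcong : ∀ t : ℕ, (P : ℤ) ∣ f.eval ((P * t : ℕ) : ℤ) - f.eval 0 := by
    intro t
    have h4 := f.sub_dvd_eval_sub ((P * t : ℕ) : ℤ) 0
    rw [sub_zero] at h4
    refine dvd_trans ?_ h4
    push_cast
    exact Dvd.intro _ rfl
  refine ⟨S.image (fun t => (f.eval ((P * t : ℕ) : ℤ)).toNat), ?_, ?_, ?_⟩
  · -- separated
    intro m hm m' hm' hne
    obtain ⟨t, ht, rfl⟩ := mem_image.1 hm
    obtain ⟨t', ht', rfl⟩ := mem_image.1 hm'
    have h4 := Int.toNat_of_nonneg (hpos t ht)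
    have h5 := Int.toNat_of_nonneg (hpos t' ht')
    have h6 : (P : ℤ) ∣ f.eval ((P * t : ℕ) : ℤ) - f.eval ((P * t' : ℕ) : ℤ) := by
      have := dvd_sub (hcong t) (hcong t')
      rwa [sub_sub_sub_cancel_right] at this
    rw [← h4, ← h5] at h6
    obtain ⟨x, hx⟩ : ∃ x, x = (f.eval ((P * t : ℕ) : ℤ)).toNat := ⟨_, rfl⟩
    obtain ⟨y, hy⟩ : ∃ y, y = (f.eval ((P * t' : ℕ) : ℤ)).toNat := ⟨_, rfl⟩
    rw [← hx, ← hy] at h6 hne ⊢
    rcases Nat.lt_or_gt_of_ne hne with h | h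
    · left
      have h7 : (P : ℤ) ∣ ((y - x : ℕ) : ℤ) := by
        rw [Nat.cast_sub h.le, ← neg_sub]
        exact (dvd_neg).2 h6
      have h8 := Nat.le_of_dvd (by omega) (Int.natCast_dvd_natCast.1 h7)
      omega
    · right
      have h7 : (P : ℤ) ∣ ((x - y : ℕ) : ℤ) := by
        rw [Nat.cast_sub h.le]
        exact h6
      have h8 := Nat.le_of_dvd (by omega) (Int.natCast_dvd_natCast.1 h7)
      omega
  · -- the number
    have h4 : S.card ≤ d * (S.image (fun t => (f.eval ((P * t : ℕ) : ℤ)).toNat)).card := by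
      refine card_le_mul_card_image S d fun v _ => ?_
      refine le_trans (card_le_card ?_) (le_of_le_of_eq (card_fiber f hd S P hP0 (v : ℤ)) hd'.symm)
      intro t ht
      obtain ⟨h5, h6⟩ := mem_filter.1 ht
      refine mem_filter.2 ⟨h5, ?_⟩
      rw [← h6, Int.toNat_of_nonneg (hpos t h5)]
    have h5 : (β - α) * R / P - 1 ≤ (S.card : ℝ) := by
      rw [hS, Nat.card_Icc]
      have e1 := Nat.ceil_lt_add_one (show 0 ≤ α * R / P by positivity)
      have e2 := Nat.lt_floor_add_one (β * R / P)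
      have e3 : ((⌊β * R / P⌋₊ + 1 : ℕ) : ℝ) - (⌈α * R / P⌉₊ : ℝ) ≤
          ((⌊β * R / P⌋₊ + 1 - ⌈α * R / P⌉₊ : ℕ) : ℝ) := by
        rcases le_or_gt ⌈α * R / P⌉₊ (⌊β * R / P⌋₊ + 1) with h | h
        · rw [Nat.cast_sub h]
        · have h6 : ((⌊β * R / P⌋₊ + 1 : ℕ) : ℝ) < (⌈α * R / P⌉₊ : ℝ) := by exact_mod_cast h
          have h7 : (0 : ℝ) ≤ ((⌊β * R / P⌋₊ + 1 - ⌈α * R / P⌉₊ : ℕ) : ℝ) := Nat.cast_nonneg _
          linarith
      refine le_trans ?_ e3
      push_cast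
      have e4 : (β - α) * R / P = β * R / P - α * R / P := by ring
      rw [e4]
      linarith
    have h6 : Real.exp ((Real.log 2 / d - 2 * ε) * j) * (2 + d) - 1 ≤ (β - α) * R / P - 1 := by
      have h7 : (β - α) * R / P ≥ (β - α) * R / Real.exp (ε * j) := by
        have : 0 < β - α := by linarith
        gcongr
      have h8 : (β - α) * R / Real.exp (ε * j) =
          (β - α) * (Real.exp ((Real.log 2 / d - 2 * ε) * j) * Real.exp (ε * j)) := by
        rw [hR, mul_div_assoc, ← Real.exp_sub, ← Real.exp_add]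
        congr 2
        ring
      have h9 : (2 + d) ≤ Real.exp (ε * j) * (β - α) := by
        rwa [div_le_iff₀ (by linarith)] at h1
      have h10 := Real.exp_pos ((Real.log 2 / d - 2 * ε) * j)
      have h11 : Real.exp ((Real.log 2 / d - 2 * ε) * j) * (2 + d) ≤
          Real.exp ((Real.log 2 / d - 2 * ε) * j) * (Real.exp (ε * j) * (β - α)) := by gcongr
      have h12 : (β - α) * (Real.exp ((Real.log 2 / d - 2 * ε) * j) * Real.exp (ε * j)) =
          Real.exp ((Real.log 2 / d - 2 * ε) * j) * (Real.exp (ε * j) * (β - α)) := by ring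
      linarith
    have h7 : (1 : ℝ) ≤ Real.exp ((Real.log 2 / d - 2 * ε) * j) := by
      refine Real.one_le_exp ?_
      positivity
    have h8 : (S.card : ℝ) ≤ d * (S.image (fun t => (f.eval ((P * t : ℕ) : ℤ)).toNat)).card := by
      exact_mod_cast h4
    have h9 : (d : ℝ) * Real.exp ((Real.log 2 / d - 2 * ε) * j) ≤
        d * (S.image (fun t => (f.eval ((P * t : ℕ) : ℤ)).toNat)).card := by
      nlinarith
    exact le_of_mul_le_mul_left h9 hd0
  · intro m hm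
    obtain ⟨t, ht, rfl⟩ := mem_image.1 hm
    have h4 := Int.toNat_of_nonneg (hpos t ht)
    obtain ⟨h5, h6⟩ := hmem t ht
    rw [← h4, Int.cast_natCast] at h5 h6
    refine ⟨by exact_mod_cast h5, by exact_mod_cast h6, ⟨P * t, by rw [h4]⟩, ?_⟩
    rw [h4]
    exact (Int.modEq_iff_dvd.2 (by
      have := hcong t
      rwa [← neg_sub, dvd_neg] at this))
end Pool.Agent.H532.SQ
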