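import Mathlib
import Pool.Agent.H532.SQ.Lim
import Pool.Agent.H532.SQ.Pos
import Pool.Agent.H532.SQ.Lower

/-!
Empty windows at the values of a polynomial, in dyadic blocks.
-/

namespace Pool.Agent.H532.SQ

open Finset MeasureTheory Function ProbabilityTheory Filter Polynomial Pool.Agent.H532.RM
  Pool.Agent.H532.LG Pool.Agent.H532.HY
open scoped ENNReal Topology

lemma ev_half_exp (c : ℝ) (hc : 0 < c) (k : ℕ) : ∀ᶠ j : ℕ in atTop,
    (j : ℝ) ^ k ≤ Real.exp (c * j) / 2 := by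
  filter_upwards [ev_poly_exp c hc (k + 1), eventually_ge_atTop 2] with j h1 h2
  have hj2 : (2 : ℝ) ≤ j := by exact_mod_cast h2
  rw [Real.exp_neg, ← div_eq_mul_inv, div_le_one (Real.exp_pos _)] at h1
  rw [le_div_iff₀ (by norm_num)]
  refine le_trans ?_ h1
  rw [pow_succ]
  gcongr

lemma ev_sq (c : ℝ) (hc : 0 < c) : ∀ᶠ j : ℕ in atTop, Real.log j ^ 2 ≤ c * j := by
  have h1 := (Real.isLittleO_pow_log_id_atTop (n := 2)).bound hc
  filter_upwards [(tendsto_natCast_atTop_atTop (R := ℝ)).eventually h1] with j h2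
  simp only [id_eq, Real.norm_eq_abs] at h2
  rwa [abs_of_nonneg (sq_nonneg _), abs_of_nonneg (Nat.cast_nonneg _)] at h2

theorem poly_block {y : ℕ → ℕ} (hy : Cut y) {z : ℕ → ℕ}
    (hz : Tendsto (fun n : ℕ => V (z n) * Real.log n) atTop (𝓝 1))
    (f : ℤ[X]) (hd : 0 < f.natDegree) (hl : 0 < f.leadingCoeff) (c δ : ℝ) (hc : 0 < c)
    (hδ : 0 < δ)
    (hcδ : c / (2 * Real.exp (-Real.eulerMascheroniConstant)) + δ ≤ 1 / f.natDegree) {Ω : Type}
    [MeasurableSpace Ω] (μ : Measure Ω) [IsProbabilityMeasure μ] (A : ℕ → Ω → ℕ)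
    (hA : RandomClasses μ A) :
    ∀ᵐ ω ∂μ, ∀ᶠ j : ℕ in atTop, ∃ M : Finset ℕ,
      Real.exp ((1 / f.natDegree - c / (2 * Real.exp (-Real.eulerMascheroniConstant)) - δ) *
        (j * Real.log 2)) ≤ (M.card : ℝ) ∧
      ∀ m ∈ M, 2 ^ j ≤ m ∧ m + LU c j < 2 ^ (j + 1) ∧ (∃ n : ℕ, f.eval (n : ℤ) = m) ∧
        T1 (mix (y j) (fun _ => 0) (fun p => A p ω)) (z (2 ^ j)) m (LU c j) = 0 := by
  classical
  obtain ⟨g, hg⟩ : ∃ g : ℝ, g = Real.exp (-Real.eulerMascheroniConstant) := ⟨_, rfl⟩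
  have hg0 : 0 < g := by rw [hg]; exact Real.exp_pos _
  rw [← hg] at hcδ ⊢
  obtain ⟨d, hd'⟩ : ∃ d : ℝ, d = f.natDegree := ⟨_, rfl⟩
  have hd1 : 1 ≤ d := by rw [hd']; exact_mod_cast hd
  have hl2 : 0 < Real.log 2 := Real.log_pos (by norm_num)
  have hl2a := Real.log_two_gt_d9
  have hl2b := Real.log_two_lt_d9
  have hcg0 : 0 < c / (2 * g) := by positivity
  have hδ1 : δ ≤ 1 := by
    have : 1 / (f.natDegree : ℝ) ≤ 1 := by
      rw [← hd', div_le_one (by linarith)]; exact hd1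
    linarith
  -- parameters
  obtain ⟨ε, hε⟩ : ∃ ε : ℝ, ε = min (δ * Real.log 2 / 16) (Real.log 2 / (4 * f.natDegree)) :=
    ⟨_, rfl⟩
  have hε0 : 0 < ε := by
    rw [hε, ← hd']; exact lt_min (by positivity) (by positivity)
  have hε1 : ε ≤ δ * Real.log 2 / 16 := by rw [hε]; exact min_le_left _ _
  have hε2 : ε ≤ Real.log 2 / (4 * f.natDegree) := by rw [hε]; exact min_le_right _ _
  obtain ⟨ε1, hε1'⟩ : ∃ ε1 : ℝ, ε1 = min 1 (ε / 4) := ⟨_, rfl⟩
  have hε10 : 0 < ε1 := by rw [hε1']; exact lt_min one_pos (by positivity)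
  have hε11 : ε1 ≤ 1 := by rw [hε1']; exact min_le_left _ _
  have hε12 : ε1 ≤ ε / 4 := by rw [hε1']; exact min_le_right _ _
  obtain ⟨δ2, hδ2⟩ : ∃ δ2 : ℝ, δ2 = min 1 (δ / (16 * c)) := ⟨_, rfl⟩
  have hδ20 : 0 < δ2 := by rw [hδ2]; exact lt_min one_pos (by positivity)
  have hδ21 : δ2 ≤ 1 := by rw [hδ2]; exact min_le_left _ _
  have hδ22 : δ2 ≤ δ / (16 * c) := by rw [hδ2]; exact min_le_right _ _
  obtain ⟨C0, hC0⟩ : ∃ C0 : ℝ, C0 = 1 + 2 * c + 4 * (c / (2 * g) + δ) / (c * Real.log 2) :=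
    ⟨_, rfl⟩
  have hx0 : 0 ≤ 4 * (c / (2 * g) + δ) / (c * Real.log 2) := by positivity
  have hC01 : 1 ≤ C0 := by rw [hC0]; linarith
  have hC02 : 2 * c ≤ C0 := by rw [hC0]; linarith
  have hC03 : 4 * (c / (2 * g) + δ) / (c * Real.log 2) ≤ C0 := by rw [hC0]; linarith
  -- levels
  obtain ⟨κ, hκ, hκy⟩ := hy.low
  obtain ⟨ζ, hζ⟩ : ∃ ζ : ℕ → ℕ, ζ = fun j => min (y j) ⌊ε1 * j⌋₊ := ⟨_, rfl⟩
  have hjt : Tendsto (fun j : ℕ => (j : ℝ)) atTop atTop := tendsto_natCast_atTop_atTop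
  have hζ1 : ∀ᶠ j : ℕ in atTop, min κ (ε1 / 2) * j ≤ ζ j := by
    filter_upwards [hκy, hjt.eventually_ge_atTop (2 / ε1)] with j h1 h2
    rw [div_le_iff₀ hε10] at h2
    have hj0 : (0 : ℝ) ≤ j := Nat.cast_nonneg _
    rw [hζ]
    beta_reduce
    rw [Nat.cast_min]
    refine le_min ?_ ?_
    · refine le_trans ?_ h1
      have : min κ (ε1 / 2) ≤ κ := min_le_left _ _
      gcongr
    · have h3 := Nat.lt_floor_add_one (ε1 * (j : ℝ))
      have : min κ (ε1 / 2) ≤ ε1 / 2 := min_le_right _ _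
      calc min κ (ε1 / 2) * (j : ℝ) ≤ ε1 / 2 * j := by gcongr
        _ ≤ _ := by linarith
  have hζ2' : ∀ j, (ζ j : ℝ) ≤ ε1 * j := by
    intro j
    rw [hζ]
    refine le_trans ?_ (Nat.floor_le (by positivity))
    exact_mod_cast min_le_right _ _
  have hζ2 : ∀ᶠ j : ℕ in atTop, ζ j ≤ j := by
    refine Eventually.of_forall fun j => ?_
    have h1 := hζ2' j
    have h2 : (ζ j : ℝ) ≤ j := by
      have : ε1 * (j : ℝ) ≤ 1 * j := by gcongr
      linarith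
    exact_mod_cast h2
  have hζy : ∀ j, ζ j ≤ y j := fun j => by rw [hζ]; exact min_le_left _ _
  obtain ⟨P, hP⟩ : ∃ P : ℕ → ℕ, P = fun j => primorial (ζ j) * (j ^ 3 + 1) := ⟨_, rfl⟩
  have hPe : ∀ᶠ j : ℕ in atTop, (P j : ℝ) ≤ Real.exp (ε * j) := by
    filter_upwards [ev_half_exp (ε / 2) (by positivity) 3, eventually_ge_atTop 1] with j h1 h2
    have h3 : (primorial (ζ j) : ℝ) ≤ Real.exp (ε / 2 * j) := by
      have h4 : (primorial (ζ j) : ℝ) ≤ 4 ^ (ζ j) := by exact_mod_cast primorial_le_four_pow _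
      refine h4.trans ?_
      have h5 : (4 : ℝ) ^ (ζ j) = Real.exp (ζ j * (2 * Real.log 2)) := by
        rw [Real.exp_nat_mul]
        congr 1
        rw [two_mul, Real.exp_add, Real.exp_log (by norm_num)]; norm_num
      rw [h5]
      refine Real.exp_le_exp.2 ?_
      have h6 := hζ2' j
      calc (ζ j : ℝ) * (2 * Real.log 2) ≤ (ε1 * j) * 2 := by gcongr; linarith
        _ ≤ (ε / 4 * j) * 2 := by gcongr
        _ = ε / 2 * j := by ring
    have h4 : (1 : ℝ) ≤ (j : ℝ) ^ 3 := one_le_pow₀ (by exact_mod_cast h2)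
    rw [hP]
    push_cast
    calc (primorial (ζ j) : ℝ) * ((j : ℝ) ^ 3 + 1) ≤ Real.exp (ε / 2 * j) *
        Real.exp (ε / 2 * j) := by gcongr; linarith
      _ = Real.exp (ε * j) := by rw [← Real.exp_add]; congr 1; ring
  have hratio1 := (LU_ratio c hc).eventually (lt_mem_nhds (show c / 2 < c by linarith))
  have hratio2 := (LU_ratio c hc).eventually (gt_mem_nhds (show c < 2 * c by linarith))
  have hU3 : ∀ᶠ j : ℕ in atTop, LU c j ≤ j ^ 3 := by
    filter_upwards [hratio2, hjt.eventually_ge_atTop (2 * c), eventually_ge_atTop 1] with j h1 h2 h3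
    have hj0 : (0 : ℝ) < j := by exact_mod_cast h3
    rw [div_lt_iff₀ (by positivity)] at h1
    have : (LU c j : ℝ) ≤ (j : ℝ) ^ 3 := by
      refine h1.le.trans ?_
      have h4 : Real.log 2 ^ 2 ≤ 1 := by nlinarith
      calc 2 * c * ((j : ℝ) * Real.log 2) ^ 2 = 2 * c * (j : ℝ) ^ 2 * Real.log 2 ^ 2 := by ring
        _ ≤ j * (j : ℝ) ^ 2 * 1 := by gcongr
        _ = (j : ℝ) ^ 3 := by ring
    exact_mod_cast this
  -- positions
  obtain ⟨good, hgood⟩ : ∃ good : ℕ → Finset ℕ → Prop, good = fun j M => Sep (LU c j) M ∧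
      Real.exp ((Real.log 2 / f.natDegree - 2 * ε) * j) ≤ (M.card : ℝ) ∧
        ∀ m ∈ M, 2 ^ j ≤ m ∧ m + LU c j < 2 ^ (j + 1) ∧ (∃ n : ℕ, f.eval (n : ℤ) = m) ∧
          (m : ℤ) ≡ f.eval 0 [ZMOD P j] := ⟨_, rfl⟩
  obtain ⟨Bs, hBs⟩ : ∃ Bs : ℕ → Finset ℕ, ∀ j, (∃ M, good j M) → good j (Bs j) := by
    refine ⟨fun j => if h : ∃ M, good j M then h.choose else ∅, fun j hj => ?_⟩
    beta_reduce
    rw [dif_pos hj]
    exact hj.choose_spec
  have hgev : ∀ᶠ j : ℕ in atTop, good j (Bs j) := by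
    filter_upwards [positions f hd hl ε hε0 hε2, hPe, hU3] with j h1 h2 h3
    refine hBs j ?_
    obtain ⟨M, hM⟩ := h1 (P j) (LU c j) h3 (by
      rw [hP]
      have : 1 * (j ^ 3 + 1) ≤ primorial (ζ j) * (j ^ 3 + 1) :=
        Nat.mul_le_mul_right _ (primorial_pos _)
      beta_reduce
      omega) h2
    exact ⟨M, by rw [hgood]; exact hM⟩
  have hBlt : ∀ᶠ j : ℕ in atTop, ∀ m ∈ Bs j, m < 2 ^ (j + 2) := by
    filter_upwards [hgev] with j h1 m hm
    rw [hgood] at h1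
    have h2 := (h1.2.2 m hm).2.1
    have h3 : 2 ^ (j + 2) = 2 * 2 ^ (j + 1) := by rw [← pow_succ']
    omega
  have hZ := V_pow_two z hz
  have hlow := gen_lower y (lw y) (fun _ _ => 0) (fun _ => le_max_left _ _)
    (Eventually.of_forall fun _ => le_max_right _ _) (lw_sub hy) δ2 C0 hδ20 hδ21 hC01 μ A hA
    (fun j => z (2 ^ j)) hZ Bs hBlt
  have hs := s_bound (z := z) hy hZ c (2 * (f.eval 0).natAbs) (min κ (ε1 / 2)) (δ / 4) hc
    (lt_min hκ (by positivity)) (by positivity) ζ hζ1 hζ2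
  rw [← hg] at hs
  filter_upwards [hlow] with ω hω
  filter_upwards [hω, hs, hgev, hU3, hratio1, hratio2, ev_half_exp (δ * Real.log 2 / 2)
    (by positivity) 22, ev_half_exp (δ * Real.log 2 / 4) (by positivity) 0,
    eventually_ge_atTop 1, ev_sq (c / 2 * Real.log 2 ^ 2) (by positivity)] with j h1 h2 h3 h4 h5 h6 h7 h8 h9 h10
  have hj0 : (0 : ℝ) < j := by exact_mod_cast h9
  rw [hgood] at h3
  obtain ⟨g1, g2, g3⟩ := h3
  rw [lt_div_iff₀ (by positivity)] at h5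
  rw [div_lt_iff₀ (by positivity)] at h6
  have hUj : (LU c j : ℝ) / j ≤ 2 * c * j * Real.log 2 ^ 2 := by
    rw [div_le_iff₀ hj0]
    refine h6.le.trans (le_of_eq ?_)
    ring
  have hUj2 : c / 2 * j * Real.log 2 ^ 2 ≤ (LU c j : ℝ) / j := by
    rw [le_div_iff₀ hj0]
    refine le_trans (le_of_eq ?_) h5.le
    ring
  have hUOK : UOK C0 j (LU c j) := by
    refine ⟨h4, ?_, ?_⟩
    · refine (h10.trans (le_of_eq ?_)).trans hUj2
      ring
    · refine h6.le.trans ?_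
      have h4 : Real.log 2 ^ 2 ≤ 1 := by nlinarith
      calc 2 * c * ((j : ℝ) * Real.log 2) ^ 2 = 2 * c * (j : ℝ) ^ 2 * Real.log 2 ^ 2 := by ring
        _ ≤ C0 * (j : ℝ) ^ 2 * 1 := by gcongr
        _ = _ := by ring
  obtain ⟨s, hsd⟩ : ∃ s : ℝ, s = (c / (2 * g) + δ / 4) * (j * Real.log 2) := ⟨_, rfl⟩
  rw [← hsd] at h2
  have hs0 : 0 ≤ s := by rw [hsd]; positivity
  have hsC : s ≤ C0 * ((LU c j : ℝ) / j) := by
    calc s ≤ 4 * (c / (2 * g) + δ) / (c * Real.log 2) * (c / 2 * j * Real.log 2 ^ 2) := by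
          have e : 4 * (c / (2 * g) + δ) / (c * Real.log 2) * (c / 2 * j * Real.log 2 ^ 2) =
              2 * (c / (2 * g) + δ) * (j * Real.log 2) := by field_simp; ring
          rw [e, hsd]
          have : c / (2 * g) + δ / 4 ≤ 2 * (c / (2 * g) + δ) := by linarith
          gcongr
      _ ≤ C0 * ((LU c j : ℝ) / j) := by gcongr
  -- the size of the family
  have hMpos : (0 : ℝ) < (Bs j).card := (Real.exp_pos _).trans_le g2
  have hMpos' : 0 < (Bs j).card := by exact_mod_cast hMpos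
  obtain ⟨i, hi⟩ : ∃ i, i = Nat.log 2 (Bs j).card := ⟨_, rfl⟩
  have hi1 : 2 ^ i ≤ (Bs j).card := by rw [hi]; exact Nat.pow_log_le_self 2 (by omega)
  have hi2 : (Bs j).card < 2 ^ (i + 1) := by
    rw [hi]; exact Nat.lt_pow_succ_log_self (by norm_num) _
  have hi2r : ((Bs j).card : ℝ) / 2 ≤ 2 ^ i := by
    have : ((Bs j).card : ℝ) ≤ 2 ^ (i + 1) := by exact_mod_cast hi2.le
    rw [pow_succ] at this
    linarith
  have hij : i ≤ j := by
    have e1 : (Bs j).card ≤ 2 ^ j := by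
      have hsub : Bs j ⊆ Ico (2 ^ j) (2 ^ (j + 1)) := fun m hm => by
        obtain ⟨e2, e3, _⟩ := g3 m hm
        exact mem_Ico.2 ⟨e2, by omega⟩
      refine (card_le_card hsub).trans (le_of_eq ?_)
      rw [Nat.card_Ico, pow_succ]
      omega
    exact (Nat.pow_le_pow_iff_right (by norm_num : 1 < 2)).1 (hi1.trans e1)
  have hT : ∀ m ∈ Bs j, V (z (2 ^ j)) / V (lw y j) *
      T1 (mix (y j) (fun _ => 0) (fun p => A p ω)) (lw y j) m (LU c j) ≤ s := by
    intro m hm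
    obtain ⟨_, _, _, e4⟩ := g3 m hm
    have e5 : (m : ℤ) ≡ f.eval 0 [ZMOD (primorial (ζ j) : ℕ)] := by
      refine Int.modEq_iff_dvd.2 (dvd_trans ?_ (Int.modEq_iff_dvd.1 e4))
      rw [hP]
      push_cast
      exact Dvd.intro _ rfl
    have e6 := (T1_mix_zero (y j) (ζ j) (lw y j) (hζy j) ((hζy j).trans (le_max_left _ _))
      (fun p => A p ω) m (LU c j)).trans (t1_shift (ζ j) m (LU c j) (f.eval 0) e5)
    have e7 : (T1 (mix (y j) (fun _ => 0) (fun p => A p ω)) (lw y j) m (LU c j) : ℝ) ≤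
        T1 (fun _ => 0) (ζ j) 0 (LU c j) + 2 * (f.eval 0).natAbs := by exact_mod_cast e6
    have hVZ := V_pos (z (2 ^ j))
    have hVw := V_pos (lw y j)
    refine le_trans ?_ h2
    gcongr
  -- the exponent
  have hU8 : δ2 * ((LU c j : ℝ) / j) ≤ δ / 8 * (j * Real.log 2) := by
    calc δ2 * ((LU c j : ℝ) / j) ≤ δ / (16 * c) * (2 * c * j * Real.log 2 ^ 2) := by gcongr
      _ = δ / 8 * (j * Real.log 2) * Real.log 2 := by field_simp; ring
      _ ≤ δ / 8 * (j * Real.log 2) * 1 := by gcongr; linarith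
      _ = _ := mul_one _
  have hεj : 2 * ε * j ≤ δ / 8 * (j * Real.log 2) := by
    calc 2 * ε * j ≤ 2 * (δ * Real.log 2 / 16) * j := by gcongr
      _ = _ := by ring
  have hkey : (1 / f.natDegree - c / (2 * g) - δ) * (j * Real.log 2) +
      δ * Real.log 2 / 2 * j ≤
      (Real.log 2 / f.natDegree - 2 * ε) * j - s - δ2 * ((LU c j : ℝ) / j) := by
    have e1 : (Real.log 2 / f.natDegree - 2 * ε) * j =
        1 / f.natDegree * (j * Real.log 2) - 2 * ε * j := by ring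
    rw [e1, hsd]
    linarith
  have hexp : Real.exp ((1 / f.natDegree - c / (2 * g) - δ) * (j * Real.log 2)) *
      (Real.exp (δ * Real.log 2 / 2 * j) / 2) ≤ 2 ^ i * Real.exp (-s - δ2 *
        ((LU c j : ℝ) / j)) := by
    calc _ = Real.exp ((1 / f.natDegree - c / (2 * g) - δ) * (j * Real.log 2) +
          δ * Real.log 2 / 2 * j) / 2 := by rw [Real.exp_add]; ring
      _ ≤ Real.exp ((Real.log 2 / f.natDegree - 2 * ε) * j - s - δ2 * ((LU c j : ℝ) / j)) / 2 := by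
          gcongr
      _ = Real.exp ((Real.log 2 / f.natDegree - 2 * ε) * j) / 2 *
          Real.exp (-s - δ2 * ((LU c j : ℝ) / j)) := by
          rw [div_mul_eq_mul_div, ← Real.exp_add]
          congr 2
          ring
      _ ≤ ((Bs j).card : ℝ) / 2 * Real.exp (-s - δ2 * ((LU c j : ℝ) / j)) := by gcongr
      _ ≤ _ := by gcongr
  have hj22 : (1 : ℝ) ≤ (j : ℝ) ^ 22 := one_le_pow₀ (by exact_mod_cast h9)
  have hone : 1 ≤ Real.exp ((1 / f.natDegree - c / (2 * g) - δ) * (j * Real.log 2)) := by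
    refine Real.one_le_exp ?_
    have : 0 ≤ 1 / (f.natDegree : ℝ) - c / (2 * g) - δ := by linarith
    positivity
  obtain ⟨M, hM1, hM2, hM3⟩ := h1 (LU c j) hUOK s hs0 hsC i hij
    ⟨Bs j, Subset.rfl, hi1, g1, hT⟩ (by
      refine le_trans ?_ hexp
      calc (j : ℝ) ^ 22 = 1 * (j : ℝ) ^ 22 := (one_mul _).symm
        _ ≤ _ := by gcongr)
  refine ⟨M, ?_, fun m hm => ?_⟩
  · refine le_trans ?_ hM2
    refine le_trans ?_ hexp
    refine le_mul_of_one_le_right (Real.exp_pos _).le ?_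
    exact hj22.trans h7
  · obtain ⟨e1, e2, e3, _⟩ := g3 m (hM1 hm)
    exact ⟨e1, e2, e3, hM3 m hm⟩

end Pool.Agent.H532.SQ
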