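import Mathlib
import Pool.Agent.H532.SQ.Block
import Pool.Agent.H532.HY.Final

/-!
Empty windows at the values of all polynomials.
-/

namespace Pool.Agent.H532.SQ

open Finset MeasureTheory Function ProbabilityTheory Filter Polynomial Pool.Agent.H532.RM
  Pool.Agent.H532.LG Pool.Agent.H532.HY
open scoped ENNReal Topology

/-- the model -/
def hyb0 (z y : ℕ → ℕ) (a : ℕ → ℕ) : Set ℕ :=
  {n | ∀ p : ℕ, p.Prime → p ≤ z n →
    ¬ n ≡ (if p ≤ y (Nat.log 2 n) then 0 else a p) [MOD p]}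

/-- the arguments with empty windows -/
def Em (R : Set ℕ) (f : ℤ[X]) (c X : ℝ) : Set ℕ :=
  {n : ℕ | X ≤ (f.eval (n : ℤ) : ℤ) ∧
    ((f.eval (n : ℤ) : ℤ) : ℝ) + c * Real.log (f.eval (n : ℤ) : ℤ) ^ 2 ≤ 4 * X ∧
    ∀ r ∈ R, ((f.eval (n : ℤ) : ℤ) : ℝ) < r →
      ((f.eval (n : ℤ) : ℤ) : ℝ) + c * Real.log (f.eval (n : ℤ) : ℤ) ^ 2 < r}

lemma Em_finite (R : Set ℕ) (f : ℤ[X]) (hd : 0 < f.natDegree) (hl : 0 < f.leadingCoeff)
    (c X : ℝ) (hc : 0 ≤ c) : (Em R f c X).Finite := by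
  have hinj : Function.Injective (Int.castRingHom ℝ) := Int.cast_injective
  have h1 := (f.map (Int.castRingHom ℝ)).tendsto_atTop_of_leadingCoeff_nonneg
    (natDegree_pos_iff_degree_pos.1 (by rwa [natDegree_map_eq_of_injective hinj])) (by
      rw [leadingCoeff_map_of_injective hinj]
      have e : (Int.castRingHom ℝ) f.leadingCoeff = (f.leadingCoeff : ℝ) := rfl
      rw [e]; exact_mod_cast hl.le)
  have h2 := (h1.comp tendsto_natCast_atTop_atTop).eventually_gt_atTop (4 * X)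
  obtain ⟨n0, hn0⟩ := eventually_atTop.1 h2
  refine (Set.finite_Iio n0).subset fun n hn => ?_
  rw [Set.mem_Iio]
  by_contra hcon
  have h3 := hn0 n (not_lt.1 hcon)
  simp only [comp_apply] at h3
  rw [eval_map_nat] at h3
  obtain ⟨_, h4, _⟩ := hn
  have h5 : 0 ≤ c * Real.log (f.eval (n : ℤ) : ℤ) ^ 2 := by positivity
  linarith

lemma Em_of_block {z y : ℕ → ℕ} (hzm : Monotone z) (a : ℕ → ℕ) (f : ℤ[X])
    (hd : 0 < f.natDegree) (hl : 0 < f.leadingCoeff) (c : ℝ) (hc : 0 < c) (j : ℕ) (X : ℝ)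
    (hX1 : X ≤ 2 ^ j) (hX2 : 2 ^ j < 2 * X) (M : Finset ℕ)
    (hM : ∀ m ∈ M, 2 ^ j ≤ m ∧ m + LU c j < 2 ^ (j + 1) ∧ (∃ n : ℕ, f.eval (n : ℤ) = m) ∧
        T1 (mix (y j) (fun _ => 0) a) (z (2 ^ j)) m (LU c j) = 0) :
    M.card ≤ (Em (hyb0 z y a) f c X).ncard := by
  classical
  have hfin := Em_finite (hyb0 z y a) f hd hl c X hc.le
  have hsub : (M : Set ℕ) ⊆ (fun n : ℕ => (f.eval (n : ℤ)).toNat) '' (Em (hyb0 z y a) f c X) := by
    intro m hm
    obtain ⟨h1, h2, ⟨n, hn⟩, h3⟩ := hM m (mem_coe.1 hm)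
    refine ⟨n, ?_, by beta_reduce; rw [hn]; exact Int.toNat_natCast m⟩
    have hmr : (2 : ℝ) ^ j ≤ m := by exact_mod_cast h1
    have hmU : (m : ℝ) + LU c j < 2 ^ (j + 1) := by exact_mod_cast h2
    have hm0 : (0 : ℝ) < m := lt_of_lt_of_le (by positivity) hmr
    have hlog : c * Real.log (m : ℝ) ^ 2 ≤ LU c j := by
      refine le_trans ?_ (Nat.le_ceil _)
      have h4 : Real.log (m : ℝ) ≤ ((j : ℝ) + 1) * Real.log 2 := by
        have h5 : (m : ℝ) ≤ 2 ^ (j + 1) := by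
          have : (0 : ℝ) ≤ LU c j := Nat.cast_nonneg _
          linarith
        have h6 := Real.log_le_log hm0 h5
        rw [Real.log_pow] at h6
        push_cast at h6
        exact h6
      have h7 : 0 ≤ Real.log (m : ℝ) := Real.log_nonneg (by
        refine le_trans (one_le_pow₀ (by norm_num)) hmr)
      gcongr
    show X ≤ ((f.eval (n : ℤ) : ℤ) : ℝ) ∧ _ ∧ _
    rw [hn]
    push_cast
    refine ⟨hX1.trans hmr, ?_, ?_⟩
    · rw [pow_succ] at hmU
      linarith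
    · intro r hr hmr'
      by_contra hcon
      rw [not_lt] at hcon
      have h4 : m < r := by exact_mod_cast hmr'
      have h5 : r ≤ m + LU c j := by
        have : (r : ℝ) ≤ m + LU c j := by linarith
        exact_mod_cast this
      have hlogr : Nat.log 2 r = j := log_two_eq (by omega) (by omega)
      have h6 : r ∈ TT {0} (mix (y j) (fun _ => 0) a) (primesLe (z (2 ^ j))) m (LU c j) := by
        refine mem_T1.2 ⟨⟨h4, h5⟩, fun p hp => ?_⟩
        obtain ⟨hp1, hp2⟩ := mem_primesLe.1 hp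
        have := hr p hp2 (hp1.trans (hzm (by omega)))
        rw [hlogr] at this
        exact this
      unfold T1 at h3
      rw [card_eq_zero] at h3
      rw [h3] at h6
      exact absurd h6 (notMem_empty _)
  calc M.card = (M : Set ℕ).ncard := (Set.ncard_coe_finset M).symm
    _ ≤ ((fun n : ℕ => (f.eval (n : ℤ)).toNat) '' (Em (hyb0 z y a) f c X)).ncard :=
        Set.ncard_le_ncard hsub (hfin.image _)
    _ ≤ (Em (hyb0 z y a) f c X).ncard := Set.ncard_image_le hfin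

/-- one polynomial, one constant -/
theorem poly_one {y : ℕ → ℕ} (hy : Cut y) {z : ℕ → ℕ} (hzm : Monotone z)
    (hz : Tendsto (fun n : ℕ => V (z n) * Real.log n) atTop (𝓝 1))
    (f : ℤ[X]) (hd : 0 < f.natDegree) (hl : 0 < f.leadingCoeff) (c δ : ℝ) (hc : 0 < c)
    (hδ : 0 < δ)
    (hcδ : c / (2 * Real.exp (-Real.eulerMascheroniConstant)) + δ ≤ 1 / f.natDegree) {Ω : Type}
    [MeasurableSpace Ω] (μ : Measure Ω) [IsProbabilityMeasure μ] (A : ℕ → Ω → ℕ)
    (hA : RandomClasses μ A) :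
    ∀ᵐ ω ∂μ, ∀ᶠ X : ℝ in atTop,
      X ^ (1 / f.natDegree - c / (2 * Real.exp (-Real.eulerMascheroniConstant)) - δ) ≤
        ((Em (hyb0 z y (fun p => A p ω)) f c X).ncard : ℝ) := by
  filter_upwards [poly_block hy hz f hd hl c δ hc hδ hcδ μ A hA] with ω hω
  obtain ⟨j0, hj0⟩ := eventually_atTop.1 hω
  filter_upwards [eventually_ge_atTop ((2 : ℝ) ^ (j0 + 1) + 2)] with X hX
  have hX0 : (0 : ℝ) < (2 : ℝ) ^ (j0 + 1) := by positivity
  have hXpos : 0 < X := by linarith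
  obtain ⟨N, hN⟩ : ∃ N, N = ⌈X⌉₊ := ⟨_, rfl⟩
  have hN1 : X ≤ N := by rw [hN]; exact Nat.le_ceil X
  have hN2 : (N : ℝ) < X + 1 := by rw [hN]; exact Nat.ceil_lt_add_one hXpos.le
  have hN3 : 1 < N := by
    have : (1 : ℝ) < N := by linarith
    exact_mod_cast this
  obtain ⟨j, hj⟩ : ∃ j, j = Nat.clog 2 N := ⟨_, rfl⟩
  have hj1 : N ≤ 2 ^ j := by rw [hj]; exact Nat.le_pow_clog (by norm_num) N
  have hj2 : 2 ^ (j - 1) < N := by
    rw [hj]
    exact Nat.pow_pred_clog_lt_self (by norm_num) hN3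
  have hjpos : 1 ≤ j := by
    by_contra hcon
    have : j = 0 := by omega
    rw [this, pow_zero] at hj1
    omega
  have hX1 : X ≤ 2 ^ j := hN1.trans (by exact_mod_cast hj1)
  have hX2 : (2 : ℝ) ^ j < 2 * X := by
    have h1 : (2 : ℝ) ^ (j - 1) + 1 ≤ N := by exact_mod_cast hj2
    have h2 : (2 : ℝ) ^ j = 2 * 2 ^ (j - 1) := by
      rw [← pow_succ']; congr 1; omega
    rw [h2]; linarith
  have hjj0 : j0 ≤ j := by
    by_contra hcon
    have h1 : (2 : ℝ) ^ j ≤ 2 ^ j0 := pow_le_pow_right₀ (by norm_num) (by omega)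
    have h2 : (2 : ℝ) ^ (j0 + 1) = 2 * 2 ^ j0 := by rw [← pow_succ']
    have h3 : (0 : ℝ) < 2 ^ j0 := by positivity
    linarith
  obtain ⟨M, hM1, hM2⟩ := hj0 j hjj0
  have h1 := Em_of_block hzm (fun p => A p ω) f hd hl c hc j X hX1 hX2 M hM2
  have h2 : (M.card : ℝ) ≤ ((Em (hyb0 z y (fun p => A p ω)) f c X).ncard : ℝ) := by
    exact_mod_cast h1
  refine le_trans ?_ (hM1.trans h2)
  obtain ⟨E, hE⟩ : ∃ E : ℝ, E = 1 / f.natDegree -
    c / (2 * Real.exp (-Real.eulerMascheroniConstant)) - δ := ⟨_, rfl⟩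
  rw [← hE]
  have hE0 : 0 ≤ E := by rw [hE]; linarith
  calc X ^ E ≤ ((2 : ℝ) ^ j) ^ E := Real.rpow_le_rpow hXpos.le hX1 hE0
    _ = Real.exp (E * (j * Real.log 2)) := by
        rw [Real.rpow_def_of_pos (by positivity), Real.log_pow, mul_comm]

lemma Em_anti (R : Set ℕ) (f : ℤ[X]) {c c' : ℝ} (h : c ≤ c') (X : ℝ) :
    Em R f c' X ⊆ Em R f c X := by
  rintro n ⟨h1, h2, h3⟩
  have h4 : c * Real.log (f.eval (n : ℤ) : ℤ) ^ 2 ≤ c' * Real.log (f.eval (n : ℤ) : ℤ) ^ 2 := by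
    gcongr
  refine ⟨h1, by linarith, fun r hr hlt => ?_⟩
  have := h3 r hr hlt
  linarith

/-- the list of the coefficients -/
lemma countable_poly : Countable ℤ[X] := by
  refine Function.Injective.countable (f := fun p : ℤ[X] =>
    ((p.natDegree, (List.range (p.natDegree + 1)).map p.coeff) : ℕ × List ℤ)) ?_
  intro p q h
  simp only [Prod.mk.injEq] at h
  obtain ⟨h1, h2⟩ := h
  ext n
  rw [h1] at h2
  rcases lt_or_ge n (q.natDegree + 1) with h3 | h3
  · exact List.map_inj_left.1 h2 n (List.mem_range.2 h3)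
  · rw [coeff_eq_zero_of_natDegree_lt (by omega), coeff_eq_zero_of_natDegree_lt (by omega)]

/-- **all polynomials and all constants** -/
theorem poly_all {y : ℕ → ℕ} (hy : Cut y) {z : ℕ → ℕ} (hzm : Monotone z)
    (hz : Tendsto (fun n : ℕ => V (z n) * Real.log n) atTop (𝓝 1)) {Ω : Type}
    [MeasurableSpace Ω] (μ : Measure Ω) [IsProbabilityMeasure μ] (A : ℕ → Ω → ℕ)
    (hA : RandomClasses μ A) :
    ∀ᵐ ω ∂μ, ∀ f : ℤ[X], 0 < f.natDegree → 0 < f.leadingCoeff → ∀ c δ : ℝ, 0 < c → 0 < δ →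
      c / (2 * Real.exp (-Real.eulerMascheroniConstant)) + δ ≤ 1 / f.natDegree →
      ∀ᶠ X : ℝ in atTop,
        X ^ (1 / f.natDegree - c / (2 * Real.exp (-Real.eulerMascheroniConstant)) - δ) ≤
          ((Em (hyb0 z y (fun p => A p ω)) f c X).ncard : ℝ) := by
  obtain ⟨g, hg⟩ : ∃ g : ℝ, g = Real.exp (-Real.eulerMascheroniConstant) := ⟨_, rfl⟩
  have hg0 : 0 < g := by rw [hg]; exact Real.exp_pos _
  have key : ∀ q : ℤ[X] × ℚ × ℚ, ∀ᵐ ω ∂μ, 0 < q.1.natDegree → 0 < q.1.leadingCoeff →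
      0 < (q.2.1 : ℝ) → 0 < (q.2.2 : ℝ) → (q.2.1 : ℝ) / (2 * g) + (q.2.2 : ℝ) ≤
        1 / q.1.natDegree →
      ∀ᶠ X : ℝ in atTop,
        X ^ (1 / q.1.natDegree - (q.2.1 : ℝ) / (2 * g) - (q.2.2 : ℝ)) ≤
          ((Em (hyb0 z y (fun p => A p ω)) q.1 q.2.1 X).ncard : ℝ) := by
    rintro ⟨f, c, δ⟩
    by_cases h : 0 < f.natDegree ∧ 0 < f.leadingCoeff ∧ 0 < (c : ℝ) ∧ 0 < (δ : ℝ) ∧
        (c : ℝ) / (2 * g) + (δ : ℝ) ≤ 1 / f.natDegree
    · obtain ⟨h1, h2, h3, h4, h5⟩ := h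
      rw [hg] at h5 ⊢
      filter_upwards [poly_one hy hzm hz f h1 h2 c δ h3 h4 h5 μ A hA] with ω hω _ _ _ _ _
      exact hω
    · refine Eventually.of_forall fun ω h1 h2 h3 h4 h5 => ?_
      exact absurd ⟨h1, h2, h3, h4, h5⟩ h
  rw [← hg]
  have := countable_poly
  filter_upwards [ae_all_iff.2 key] with ω hω
  intro f hd hl c δ hc hδ hcδ
  obtain ⟨c', hc1, hc2⟩ := exists_rat_btwn (show c < c + g * δ by
    have : 0 < g * δ := by positivity
    linarith)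
  obtain ⟨δ', hδ1, hδ2⟩ := exists_rat_btwn (show (0 : ℝ) < δ / 2 by positivity)
  have h1 : (c' : ℝ) / (2 * g) + δ' ≤ c / (2 * g) + δ := by
    have h2 : (c' : ℝ) / (2 * g) ≤ (c + g * δ) / (2 * g) := by gcongr
    have h3 : (c + g * δ) / (2 * g) = c / (2 * g) + δ / 2 := by field_simp
    linarith
  filter_upwards [hω (f, c', δ') hd hl (hc.trans hc1) hδ1 (h1.trans hcδ),
    eventually_ge_atTop 1] with X hX hX1
  have h4 : (Em (hyb0 z y (fun p => A p ω)) f c' X).ncard ≤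
      (Em (hyb0 z y (fun p => A p ω)) f c X).ncard :=
    Set.ncard_le_ncard (Em_anti _ f hc1.le X) (Em_finite _ f hd hl c X hc.le)
  have h5 : ((Em (hyb0 z y (fun p => A p ω)) f c' X).ncard : ℝ) ≤
      (Em (hyb0 z y (fun p => A p ω)) f c X).ncard := by exact_mod_cast h4
  refine le_trans ?_ (hX.trans h5)
  refine Real.rpow_le_rpow_of_exponent_le hX1 ?_
  linarith

lemma gamma_bound : 1 / 1.82 < Real.exp (-Real.eulerMascheroniConstant) := by
  have h1 := Real.eulerMascheroniConstant_lt_eulerMascheroniSeq' 32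
  unfold Real.eulerMascheroniSeq' at h1
  rw [if_neg (by norm_num)] at h1
  have h2 : ((harmonic 32 : ℚ) : ℝ) ≤ 4.0585 := by
    have : harmonic 32 ≤ (4.0585 : ℚ) := by
      unfold harmonic
      norm_num [Finset.sum_range_succ]
    calc ((harmonic 32 : ℚ) : ℝ) ≤ ((4.0585 : ℚ) : ℝ) := by exact_mod_cast this
      _ = 4.0585 := by norm_num
  have h3 : Real.log ((32 : ℕ) : ℝ) = 5 * Real.log 2 := by
    have : ((32 : ℕ) : ℝ) = 2 ^ 5 := by norm_num
    rw [this, Real.log_pow]; norm_num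
  rw [h3] at h1
  have h4 : -(4.0585 - 5 * Real.log 2) < -Real.eulerMascheroniConstant := by linarith
  have h5 := Real.exp_lt_exp.2 h4
  refine lt_of_le_of_lt ?_ h5
  have e : -(4.0585 - 5 * Real.log 2) = (5 : ℕ) * Real.log 2 - 4.0585 := by push_cast; ring
  rw [e, Real.exp_sub, Real.exp_nat_mul, Real.exp_log (by norm_num)]
  have h6 : Real.exp 4.0585 ≤ 58.24 := by
    have e2 : (4.0585 : ℝ) = 4 * 1 + 0.0585 := by norm_num
    have h7 : Real.exp 0.0585 ≤ 1 / (1 - 0.0585) := by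
      have h8 := Real.add_one_le_exp (-(0.0585 : ℝ))
      rw [Real.exp_neg] at h8
      rw [le_div_iff₀ (by norm_num)]
      have h9 := Real.exp_pos (0.0585 : ℝ)
      calc Real.exp 0.0585 * (1 - 0.0585) ≤ Real.exp 0.0585 * (Real.exp 0.0585)⁻¹ := by
            gcongr; linarith
        _ = 1 := mul_inv_cancel₀ h9.ne'
    have h10 : Real.exp (4 * 1) ≤ 2.7182818286 ^ 4 := by
      have e3 : Real.exp (4 * 1) = Real.exp 1 ^ 4 := by rw [← Real.exp_nat_mul]; norm_num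
      rw [e3]
      have := Real.exp_one_lt_d9
      gcongr
    rw [e2, Real.exp_add]
    calc Real.exp (4 * 1) * Real.exp 0.0585 ≤ 2.7182818286 ^ 4 * (1 / (1 - 0.0585)) := by
          gcongr
      _ ≤ 58.24 := by norm_num
  rw [div_le_div_iff₀ (by norm_num) (Real.exp_pos _)]
  linarith

end Pool.Agent.H532.SQ
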